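import Pool.Agent.helper80.EA.UpperStep

set_option autoImplicit false

open MeasureTheory ProbabilityTheory
open scoped ENNReal

namespace Pool.Agent.helper80.EA

variable {n : ℕ}

open Classical in
/-- number of jobs on the fuller machine -/
noncomputable def kF (p : Fin n → ℝ) (y : Fin n → Bool) : ℕ :=
  if 0 ≤ dif p y false then (jobs y false).card else (jobs y true).card

lemma dif_true (p : Fin n → ℝ) (y : Fin n → Bool) : dif p y true = - dif p y false := by
  rw [dif_eq, dif_eq]; simp

lemma kF_eq {p : Fin n → ℝ} {y : Fin n → Bool} {b : Bool} (h : 0 < dif p y b) :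
    kF p y = (jobs y b).card := by
  unfold kF
  cases b
  · rw [if_pos h.le]
  · rw [dif_true] at h
    rw [if_neg (by linarith)]

/-- constant bounding the potential -/
noncomputable def gmax (n : ℕ) : ℝ := 24 * n * rt n

lemma gmax_nonneg (n : ℕ) : 0 ≤ gmax n := by unfold gmax; positivity

open Classical in
/-- value of the full potential after selection -/
noncomputable def val (U : ℝ) (p : Fin n → ℝ) (y : Fin n → Bool) : ℝ :=
  if U < disc p y then gg n (kF p y) + 6 * gmax n else 0

lemma val_nonneg (U : ℝ) (p : Fin n → ℝ) (y : Fin n → Bool) : 0 ≤ val U p y := by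
  unfold val
  have := gg_nonneg n (kF p y)
  have := gmax_nonneg n
  split_ifs <;> positivity

lemma val_select_le {p : Fin n → ℝ} {x : Fin n → Bool} {b : Bool}
    {U : ℝ} (hU : 0 < U) (hD : U < dif p x b) (m : Mask n) :
    val U p (select p x (mutate x m)) ≤
      gg n (jobs x b).card + 6 * gmax n
      + near p x b ((dif p x b + U) / 2) m *
          (gg n (jobs (mutate x m) b).card - gg n (jobs x b).card)
      - 6 * gmax n * iHit (fun m => flow p x m b) ((dif p x b - U) / 2) U m
      + gmax n * iCross (fun m => flow p x m b) ((dif p x b - U) / 2) m := by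
  have hD0 : 0 < dif p x b := by linarith
  have hg := gmax_nonneg n
  have hgk := gg_nonneg n (jobs x b).card
  have hgk' := gg_nonneg n (jobs (mutate x m) b).card
  have hdisc : disc p x = dif p x b := by rw [disc_eq p x b, abs_of_pos hD0]
  have hkx : kF p x = (jobs x b).card := kF_eq hD0
  by_cases ha : acc p x m
  · rw [select_of_acc ha]
    obtain ⟨h1, h2⟩ := (acc_iff hD0).1 ha
    have hdm : disc p (mutate x m) = |dif p x b - 2 * flow p x m b| := by
      rw [disc_eq p _ b, dif_mutate]
    by_cases h3 : flow p x m b < (dif p x b - U) / 2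
    · have hnear : near p x b ((dif p x b + U) / 2) m = 1 := by
        unfold near; rw [if_pos ⟨h1, by linarith⟩]
      have hhit : iHit (fun m => flow p x m b) ((dif p x b - U) / 2) U m = 0 := by
        unfold iHit; rw [if_neg (fun h => by linarith [h.1])]
      have hcr : iCross (fun m => flow p x m b) ((dif p x b - U) / 2) m = 0 := by
        unfold iCross; rw [if_neg (by simpa using h3)]
      have hk' : kF p (mutate x m) = (jobs (mutate x m) b).card := by
        apply kF_eq; rw [dif_mutate]; linarith
      rw [hnear, hhit, hcr]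
      unfold val
      rw [hk']
      split_ifs
      · linarith
      · linarith
    · push Not at h3
      have hcr : iCross (fun m => flow p x m b) ((dif p x b - U) / 2) m = 1 := by
        unfold iCross; rw [if_pos (by simpa using h3)]
      by_cases h4 : flow p x m b ≤ (dif p x b + U) / 2
      · have hnear : near p x b ((dif p x b + U) / 2) m = 1 := by
          unfold near; rw [if_pos ⟨h1, h4⟩]
        have hhit : iHit (fun m => flow p x m b) ((dif p x b - U) / 2) U m = 1 := by
          unfold iHit; rw [if_pos ⟨h3, by linarith⟩]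
        have hv : val U p (mutate x m) = 0 := by
          unfold val
          rw [if_neg]
          rw [hdm, not_lt, abs_le]
          constructor <;> linarith
        rw [hnear, hhit, hcr, hv]
        linarith
      · push Not at h4
        have hnear : near p x b ((dif p x b + U) / 2) m = 0 := by
          unfold near; rw [if_neg (fun h => by linarith [h.2])]
        have hhit : iHit (fun m => flow p x m b) ((dif p x b - U) / 2) U m = 0 := by
          unfold iHit; rw [if_neg (fun h => by linarith [h.2])]
        rw [hnear, hhit, hcr]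
        have hv : val U p (mutate x m) ≤ gmax n + 6 * gmax n := by
          unfold val
          split_ifs
          · have := gg_le n (kF p (mutate x m))
            unfold gmax at *; linarith
          · linarith
        linarith
  · rw [select_of_not_acc ha]
    have hv : val U p x = gg n (jobs x b).card + 6 * gmax n := by
      unfold val; rw [if_pos (by rw [hdisc]; exact hD), hkx]
    rw [hv]
    rw [acc_iff hD0, not_and_or] at ha
    have hnear : near p x b ((dif p x b + U) / 2) m = 0 := by
      unfold near
      rw [if_neg]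
      rintro ⟨h1, h2⟩
      rcases ha with h | h
      · exact h h1
      · exact h (by linarith)
    have hhit : iHit (fun m => flow p x m b) ((dif p x b - U) / 2) U m = 0 := by
      unfold iHit
      rw [if_neg]
      rintro ⟨h1, h2⟩
      rcases ha with h | h
      · exact h (by simp only at h1; linarith)
      · exact h (by simp only at h2; linarith)
    rw [hnear, hhit]
    have := iCross_nonneg (fun m => flow p x m b) ((dif p x b - U) / 2) m
    have := mul_nonneg hg this
    linarith

lemma one_le_card {p : Fin n → ℝ} {x : Fin n → Bool} {b : Bool} (hp : ∀ i, 0 < p i)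
    (hD : 0 < dif p x b) : 1 ≤ (jobs x b).card := by
  by_contra h
  have h0 : jobs x b = ∅ := Finset.card_eq_zero.1 (by omega)
  unfold dif at hD
  have : ∑ i, sg b (x i) * p i ≤ 0 := by
    refine Finset.sum_nonpos fun i _ => ?_
    have hi : x i ≠ b := fun h' => by
      have := mem_jobs.2 h'
      rw [h0] at this; simp at this
    unfold sg; rw [if_neg hi]
    linarith [hp i]
  linarith

lemma core_step (hn : 2 ≤ n) {p : Fin n → ℝ} {x : Fin n → Bool} {b : Bool} {U : ℝ}
    (hp : ∀ i, 0 < p i) (hpU : ∀ i, p i ≤ U) (hU : 0 < U) (hD : U < dif p x b) :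
    E (fun m => val U p (select p x (mutate x m))) + 1 ≤ gg n (jobs x b).card + 6 * gmax n := by
  have hn0 : 0 < n := by omega
  have hD0 : 0 < dif p x b := by linarith
  have hE := E_mono (fun m => val_select_le (n := n) hU hD m)
  rw [E_add, E_sub, E_add, E_const, E_const_mul, E_const_mul] at hE
  have h1 := E_near_gg_le hn0 hp hpU (by linarith : U ≤ (dif p x b + U) / 2) x b
    (one_le_card hp hD0)
  have h2 := E_cross_le p x b (U := U) (thr := (dif p x b - U) / 2) (by linarith)
    (fun i => (hp i).le) hpU
  have hcard : (jobs x b).card ≤ n := by have := card_jobs_add' x b; omega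
  have h3 := sixth_le_pow hn hcard
  have h4 : 0 ≤ E (iCross (fun m => flow p x m b) ((dif p x b - U) / 2)) :=
    E_nonneg (iCross_nonneg _ _)
  have h5 : 1 / 6 * E (iCross (fun m => flow p x m b) ((dif p x b - U) / 2)) ≤
      E (iHit (fun m => flow p x m b) ((dif p x b - U) / 2) U) :=
    (mul_le_mul_of_nonneg_right h3 h4).trans h2
  have hg := gmax_nonneg n
  have h6 := mul_le_mul_of_nonneg_left h5 hg
  linarith

/-- The run has not yet reached the target. -/
def Alive {L U : ℝ} (adv : Adversary n L U) (p₀ : Fin n → ℝ) (x₀ : Fin n → Bool) :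
    List (Mask n) → Prop
  | [] => U < disc p₀ x₀
  | m :: h => Alive adv p₀ x₀ h ∧
      U < disc (config adv p₀ x₀ (m :: h)).1 (config adv p₀ x₀ (m :: h)).2

lemma disc_of_alive {L U : ℝ} {adv : Adversary n L U} {p₀ : Fin n → ℝ} {x₀ : Fin n → Bool}
    {h : List (Mask n)} (ha : Alive adv p₀ x₀ h) :
    U < disc (config adv p₀ x₀ h).1 (config adv p₀ x₀ h).2 := by
  cases h with
  | nil => exact ha
  | cons m h => exact ha.2

open Classical in
/-- potential along the run -/
noncomputable def Vu {L U : ℝ} (adv : Adversary n L U) (p₀ : Fin n → ℝ) (x₀ : Fin n → Bool)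
    (h : List (Mask n)) : ℝ :=
  if Alive adv p₀ x₀ h then val U (config adv p₀ x₀ h).1 (config adv p₀ x₀ h).2 else 0

lemma Vu_nonneg {L U : ℝ} (adv : Adversary n L U) (p₀ : Fin n → ℝ) (x₀ : Fin n → Bool)
    (h : List (Mask n)) : 0 ≤ Vu adv p₀ x₀ h := by
  unfold Vu; split_ifs
  · exact val_nonneg _ _ _
  · exact le_rfl

lemma config_mem {L U : ℝ} (adv : Adversary n L U) {p₀ : Fin n → ℝ} (x₀ : Fin n → Bool)
    (hp : ∀ i, p₀ i ∈ Set.Icc L U) (h : List (Mask n)) (i : Fin n) :
    (config adv p₀ x₀ h).1 i ∈ Set.Icc L U := by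
  induction h generalizing i with
  | nil => exact hp i
  | cons m h ih =>
    simp only [config]
    cases hadv : adv h with
    | none => simpa [reset] using ih i
    | some v =>
      simp only [reset]
      by_cases hi : i = v.1
      · subst hi; rw [Function.update_self]; exact v.2.2
      · rw [Function.update_of_ne hi]; exact ih i

lemma reset_mem {L U : ℝ} {p : Fin n → ℝ} (hp : ∀ i, p i ∈ Set.Icc L U)
    (o : Option (Fin n × Set.Icc L U)) (i : Fin n) : reset p o i ∈ Set.Icc L U := by
  cases o with
  | none => exact hp i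
  | some v =>
    simp only [reset]
    by_cases hi : i = v.1
    · subst hi; rw [Function.update_self]; exact v.2.2
    · rw [Function.update_of_ne hi]; exact hp i

lemma dif_reset {L U : ℝ} {p : Fin n → ℝ} (hp : ∀ i, p i ∈ Set.Icc L U)
    (o : Option (Fin n × Set.Icc L U)) (hLU : L ≤ U) (x : Fin n → Bool) (b : Bool) :
    dif p x b - (U - L) ≤ dif (reset p o) x b := by
  cases o with
  | none => simp only [reset]; linarith
  | some v =>
    simp only [reset]
    unfold dif
    rw [← Finset.add_sum_erase Finset.univ _ (Finset.mem_univ v.1),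
      ← Finset.add_sum_erase Finset.univ
        (fun j => sg b (x j) * Function.update p v.1 (v.2 : ℝ) j) (Finset.mem_univ v.1)]
    have h1 : ∀ j ∈ Finset.univ.erase v.1, sg b (x j) * Function.update p v.1 (v.2 : ℝ) j =
        sg b (x j) * p j := by
      intro j hj
      rw [Function.update_of_ne (Finset.ne_of_mem_erase hj)]
    rw [Finset.sum_congr rfl h1, Function.update_self]
    have h2 := hp v.1
    have h3 := v.2.2
    simp only [Set.mem_Icc] at h2 h3
    unfold sg
    split_ifs <;> linarith [h2.1, h2.2, h3.1, h3.2]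

lemma exists_dif_pos (p : Fin n → ℝ) (x : Fin n → Bool) {U : ℝ} (h : U < disc p x) : ∃ b, U < dif p x b := by
  rw [disc_eq p x false] at h
  rcases le_total 0 (dif p x false) with h1 | h1
  · exact ⟨false, by rwa [abs_of_nonneg h1] at h⟩
  · exact ⟨true, by rw [abs_of_nonpos h1] at h; rw [dif_true]; exact h⟩

lemma Vu_step (hn : 2 ≤ n) {L U : ℝ} (hL : 0 < L) (hLU : L ≤ U) (adv : Adversary n L U)
    {p₀ : Fin n → ℝ} (x₀ : Fin n → Bool) (hp : ∀ i, p₀ i ∈ Set.Icc L U) (h : List (Mask n))
    (ha : Alive adv p₀ x₀ h) :
    E (fun m => Vu adv p₀ x₀ (m :: h)) + 1 ≤ Vu adv p₀ x₀ h := by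
  have hU : 0 < U := by linarith
  have hmem := config_mem adv x₀ hp h
  have hdisc := disc_of_alive ha
  have hVh : Vu adv p₀ x₀ h = val U (config adv p₀ x₀ h).1 (config adv p₀ x₀ h).2 := by
    unfold Vu; rw [if_pos ha]
  have hle : ∀ m, Vu adv p₀ x₀ (m :: h) ≤
      val U (config adv p₀ x₀ (m :: h)).1 (config adv p₀ x₀ (m :: h)).2 := by
    intro m
    unfold Vu
    split_ifs
    · exact le_rfl
    · exact val_nonneg _ _ _
  have hE := E_mono hle
  simp only [config] at hE
  have hmem' := fun i => reset_mem hmem (adv h) i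
  obtain ⟨b, hb⟩ := exists_dif_pos _ _ hdisc
  have hres := dif_reset hmem (adv h) hLU (config adv p₀ x₀ h).2 b
  rw [hVh]
  generalize (config adv p₀ x₀ h).2 = x at *
  generalize (config adv p₀ x₀ h).1 = p at *
  generalize reset p (adv h) = p' at *
  have hval : val U p x = gg n (jobs x b).card + 6 * gmax n := by
    unfold val; rw [if_pos hdisc, kF_eq (by linarith : 0 < dif p x b)]
  rw [hval]
  by_cases hD : U < dif p' x b
  · have := core_step hn (fun i => lt_of_lt_of_le hL (hmem' i).1) (fun i => (hmem' i).2) hU hD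
    linarith
  · push Not at hD
    have hz : ∀ m, val U p' (select p' x (mutate x m)) = 0 := by
      intro m
      unfold val
      rw [if_neg]
      rw [not_lt]
      refine (disc_select_le p' x m).trans ?_
      rw [disc_eq p' x b, abs_le]
      constructor <;> linarith
    simp_rw [hz] at hE
    rw [E_const] at hE
    have h1 := gg_nonneg n (jobs x b).card
    have h2 : 1 ≤ 6 * gmax n := by
      unfold gmax
      have h3 : (2 : ℝ) ≤ n := by exact_mod_cast hn
      have h4 : (1 : ℝ) ≤ rt n := by exact_mod_cast rt_pos n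
      nlinarith
    linarith

lemma Vu_dead {L U : ℝ} (adv : Adversary n L U) (p₀ : Fin n → ℝ) (x₀ : Fin n → Bool)
    (h : List (Mask n)) (ha : ¬ Alive adv p₀ x₀ h) :
    E (fun m => Vu adv p₀ x₀ (m :: h)) ≤ Vu adv p₀ x₀ h := by
  have h1 : ∀ m, Vu adv p₀ x₀ (m :: h) = 0 := by
    intro m; unfold Vu; rw [if_neg (fun h' => ha h'.1)]
  simp_rw [h1]
  rw [E_const]
  exact Vu_nonneg _ _ _ _

open Classical in
lemma hitTime_le {L U : ℝ} (adv : Adversary n L U) (p₀ : Fin n → ℝ) (x₀ : Fin n → Bool)
    (ω : ℕ → Mask n) :
    hitTime adv p₀ x₀ ω ≤ ∑' t, (if Alive adv p₀ x₀ (history ω t) then (1 : ℝ≥0∞) else 0) := by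
  by_cases hex : ∃ t, disc (config adv p₀ x₀ (history ω t)).1 (config adv p₀ x₀ (history ω t)).2 ≤ U
  · have hspec := Nat.find_spec hex
    have hmin : ∀ s < Nat.find hex, U < disc (config adv p₀ x₀ (history ω s)).1
        (config adv p₀ x₀ (history ω s)).2 := fun s hs => not_le.1 (Nat.find_min hex hs)
    have halive : ∀ s < Nat.find hex, Alive adv p₀ x₀ (history ω s) := by
      intro s hs
      induction s with
      | zero => exact hmin 0 hs
      | succ s ih => exact ⟨ih (by omega), hmin (s + 1) hs⟩
    calc hitTime adv p₀ x₀ ω ≤ (Nat.find hex : ℝ≥0∞) := iInf₂_le (Nat.find hex) hspec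
      _ = ∑ s ∈ Finset.range (Nat.find hex), (1 : ℝ≥0∞) := by simp
      _ = ∑ s ∈ Finset.range (Nat.find hex),
            (if Alive adv p₀ x₀ (history ω s) then (1 : ℝ≥0∞) else 0) :=
          Finset.sum_congr rfl fun s hs => by rw [if_pos (halive s (Finset.mem_range.1 hs))]
      _ ≤ _ := ENNReal.sum_le_tsum _
  · push Not at hex
    have halive : ∀ s, Alive adv p₀ x₀ (history ω s) := by
      intro s
      induction s with
      | zero => exact hex 0
      | succ s ih => exact ⟨ih, hex (s + 1)⟩
    have h1 : (fun t => if Alive adv p₀ x₀ (history ω t) then (1 : ℝ≥0∞) else 0) = fun _ => 1 :=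
      funext fun t => by rw [if_pos (halive t)]
    rw [h1, ENNReal.tsum_const_eq_top_of_ne_zero one_ne_zero]
    exact le_top

lemma expTime_le (hn : 2 ≤ n) {L U : ℝ} (hL : 0 < L) (hLU : L ≤ U) (adv : Adversary n L U)
    {p₀ : Fin n → ℝ} (x₀ : Fin n → Bool) (hp : ∀ i, p₀ i ∈ Set.Icc L U) :
    expTime adv p₀ x₀ ≤ ENNReal.ofReal (7 * gmax n) := by
  classical
  unfold expTime
  refine (lintegral_mono (hitTime_le adv p₀ x₀)).trans ?_
  have hm : ∀ t, Measurable (fun ω : ℕ → Mask n =>
      if Alive adv p₀ x₀ (history ω t) then (1 : ℝ≥0∞) else 0) := fun t =>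
    (measurable_list (fun l => if Alive adv p₀ x₀ l then (1 : ℝ≥0∞) else 0)).comp
      (measurable_history t)
  rw [lintegral_tsum (fun t => (hm t).aemeasurable)]
  rw [ENNReal.tsum_eq_iSup_nat]
  refine iSup_le fun N => ?_
  have h1 := sum_alive_le (Alive adv p₀ x₀) (Vu adv p₀ x₀) (Vu_nonneg adv p₀ x₀)
    (fun h ha => Vu_step hn hL hLU adv x₀ hp h ha) (fun h ha => Vu_dead adv p₀ x₀ h ha) N
  refine le_trans ?_ ((le_add_right le_rfl).trans (h1.trans ?_))
  · exact le_rfl
  · apply ENNReal.ofReal_le_ofReal
    unfold Vu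
    have hg := gmax_nonneg n
    split_ifs
    · unfold val
      split_ifs
      · have := gg_le n (kF (config adv p₀ x₀ []).1 (config adv p₀ x₀ []).2)
        unfold gmax at *; linarith
      · positivity
    · positivity

lemma upper_bound (hn : 2 ≤ n) : Tstar n ≤ ENNReal.ofReal (7 * gmax n) := by
  unfold Tstar
  refine iSup_le fun L => iSup_le fun U => iSup_le fun hL => iSup_le fun hLU => iSup_le fun p₀ =>
    iSup_le fun x₀ => iSup_le fun adv => ?_
  exact expTime_le hn hL hLU adv x₀ fun i => (p₀ i).2

end Pool.Agent.helper80.EA
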