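import Pool.Agent.helper80.EA.Moments

set_option autoImplicit false

open MeasureTheory ProbabilityTheory
open scoped ENNReal

namespace Pool.Agent.helper80.EA

variable {n : ℕ}

/-- averaging over one coordinate -/
noncomputable def avg1 (i : Fin n) (φ : Mask n → ℝ) (m : Mask n) : ℝ :=
  (n : ℝ)⁻¹ * φ (Function.update m i true) + (1 - (n : ℝ)⁻¹) * φ (Function.update m i false)

/-- toggling one coordinate -/
def toggle (i : Fin n) : Mask n ≃ Mask n where
  toFun m := Function.update m i (!(m i))
  invFun m := Function.update m i (!(m i))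
  left_inv m := by simp
  right_inv m := by simp

/-- weight of the other coordinates -/
noncomputable def wt' (i : Fin n) (m : Mask n) : ℝ :=
  ∏ j ∈ Finset.univ.erase i, (if m j then (n : ℝ)⁻¹ else 1 - (n : ℝ)⁻¹)

lemma wt_eq (i : Fin n) (m : Mask n) :
    wt m = (if m i then (n : ℝ)⁻¹ else 1 - (n : ℝ)⁻¹) * wt' i m := by
  unfold wt wt'
  rw [Finset.mul_prod_erase Finset.univ (fun j => if m j then (n : ℝ)⁻¹ else 1 - (n : ℝ)⁻¹)
    (Finset.mem_univ i)]

lemma wt'_update (i : Fin n) (m : Mask n) (c : Bool) :
    wt' i (Function.update m i c) = wt' i m := by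
  unfold wt'
  refine Finset.prod_congr rfl fun j hj => ?_
  rw [Function.update_of_ne (Finset.ne_of_mem_erase hj)]

lemma E_avg1 (i : Fin n) (φ : Mask n → ℝ) : E (avg1 i φ) = E φ := by
  have h1 : ∀ ψ : Mask n → ℝ, E ψ = 1 / 2 * ∑ m, (wt m * ψ m + wt (toggle i m) * ψ (toggle i m)) := by
    intro ψ
    rw [Finset.sum_add_distrib, Equiv.sum_comp (toggle i) (fun m => wt m * ψ m)]
    unfold E; ring
  rw [h1, h1 φ]
  congr 1
  refine Finset.sum_congr rfl fun m _ => ?_
  rw [wt_eq i m, wt_eq i (toggle i m)]
  have h2 : wt' i (toggle i m) = wt' i m := wt'_update i m _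
  have h3 : (toggle i m) i = !(m i) := by simp [toggle]
  rw [h2, h3]
  unfold avg1
  have h4 : ∀ c, Function.update (toggle i m) i c = Function.update m i c := by
    intro c; simp [toggle]
  rw [h4, h4]
  cases h : m i
  · have e1 : toggle i m = Function.update m i true := by simp [toggle, h]
    have e2 : Function.update m i false = m := by rw [← h]; simp
    rw [e1, e2]; simp; ring
  · have e1 : toggle i m = Function.update m i false := by simp [toggle, h]
    have e2 : Function.update m i true = m := by rw [← h]; simp
    rw [e1, e2]; simp; ring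

/-- averaging over a list of coordinates -/
noncomputable def avg (φ : Mask n → ℝ) : List (Fin n) → Mask n → ℝ
  | [] => φ
  | i :: l => avg1 i (avg φ l)

lemma E_avg (φ : Mask n → ℝ) (l : List (Fin n)) : E (avg φ l) = E φ := by
  induction l with
  | nil => rfl
  | cons i l ih => simp only [avg]; rw [E_avg1, ih]

lemma avg_update (φ : Mask n → ℝ) (l : List (Fin n)) (m : Mask n) (j : Fin n) (hj : j ∈ l)
    (c : Bool) : avg φ l (Function.update m j c) = avg φ l m := by
  induction l generalizing m with
  | nil => simp at hj
  | cons i l ih =>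
    simp only [avg, avg1]
    by_cases hij : j = i
    · subst hij; simp
    · have hjl : j ∈ l := by simpa [hij] using hj
      rw [Function.update_comm hij, Function.update_comm hij, ih _ hjl, ih _ hjl]

/-- set all coordinates of a list to `false` -/
def clear : List (Fin n) → Mask n → Mask n
  | [], m => m
  | i :: l, m => Function.update (clear l m) i false

lemma clear_mem (l : List (Fin n)) (m : Mask n) {i : Fin n} (hi : i ∈ l) :
    clear l m i = false := by
  induction l with
  | nil => simp at hi
  | cons j l ih =>
    simp only [clear]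
    by_cases hij : i = j
    · subst hij; simp
    · rw [Function.update_of_ne hij]; exact ih (by simpa [hij] using hi)

lemma clear_not_mem (l : List (Fin n)) (m : Mask n) {i : Fin n} (hi : i ∉ l) :
    clear l m i = m i := by
  induction l with
  | nil => rfl
  | cons j l ih =>
    simp only [clear]
    simp only [List.mem_cons, not_or] at hi
    rw [Function.update_of_ne hi.1]; exact ih hi.2

lemma avg_clear_aux (φ : Mask n → ℝ) (l l' : List (Fin n)) (hl : ∀ i ∈ l', i ∈ l) (m : Mask n) :
    avg φ l (clear l' m) = avg φ l m := by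
  induction l' with
  | nil => rfl
  | cons i l' ih =>
    simp only [clear]
    rw [avg_update φ l _ i (hl i (by simp)), ih fun j hj => hl j (by simp [hj])]

lemma avg_clear (φ : Mask n → ℝ) (l : List (Fin n)) (m : Mask n) :
    avg φ l (clear l m) = avg φ l m := avg_clear_aux φ l l (fun _ h => h) m

lemma inv_bounds : 0 ≤ (n : ℝ)⁻¹ ∧ (n : ℝ)⁻¹ ≤ 1 := ⟨by positivity, Nat.cast_inv_le_one n⟩

lemma avg_le_one {φ : Mask n → ℝ} (h : ∀ m, φ m ≤ 1) (l : List (Fin n)) (m : Mask n) :
    avg φ l m ≤ 1 := by
  induction l generalizing m with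
  | nil => exact h m
  | cons i l ih =>
    simp only [avg, avg1]
    obtain ⟨h0, h1⟩ := inv_bounds (n := n)
    nlinarith [ih (Function.update m i true), ih (Function.update m i false)]

lemma avg_nonneg {φ : Mask n → ℝ} (h : ∀ m, 0 ≤ φ m) (l : List (Fin n)) (m : Mask n) :
    0 ≤ avg φ l m := by
  induction l generalizing m with
  | nil => exact h m
  | cons i l ih =>
    simp only [avg, avg1]
    obtain ⟨h0, h1⟩ := inv_bounds (n := n)
    have := mul_nonneg h0 (ih (Function.update m i true))
    have := mul_nonneg (sub_nonneg.2 h1) (ih (Function.update m i false))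
    linarith

/-- with all listed coordinates `false`, the value at the mask itself has weight `(1-q)^|l|` -/
lemma le_avg_of_false {φ : Mask n → ℝ} (h : ∀ m, 0 ≤ φ m) (l : List (Fin n)) (m : Mask n)
    (hm : ∀ i ∈ l, m i = false) : (1 - (n : ℝ)⁻¹) ^ l.length * φ m ≤ avg φ l m := by
  induction l generalizing m with
  | nil => simp [avg]
  | cons i l ih =>
    simp only [avg, avg1, List.length_cons]
    obtain ⟨h0, h1⟩ := inv_bounds (n := n)
    have e : Function.update m i false = m := by
      rw [← hm i (by simp)]; simp
    rw [e]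
    have h2 := ih m (fun j hj => hm j (by simp [hj]))
    have h3 := mul_nonneg h0 (avg_nonneg h l (Function.update m i true))
    have h4 := mul_le_mul_of_nonneg_left h2 (sub_nonneg.2 h1)
    rw [pow_succ]
    nlinarith

end Pool.Agent.helper80.EA
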