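import Pool.Agent.helper80.EA.Defs

set_option autoImplicit false

open MeasureTheory ProbabilityTheory
open scoped ENNReal

namespace Pool.Agent.helper80.EA

variable {n : ℕ}

instance : IsProbabilityMeasure (maskLaw n) := by
  unfold maskLaw; infer_instance

instance : IsProbabilityMeasure (runLaw n) := by
  unfold runLaw; infer_instance

/-- weight of a mask -/
noncomputable def wt (m : Mask n) : ℝ := ∏ i, (if m i then (n : ℝ)⁻¹ else 1 - (n : ℝ)⁻¹)

lemma wt_nonneg (m : Mask n) : 0 ≤ wt m := by
  unfold wt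
  refine Finset.prod_nonneg fun i _ => ?_
  have h : (n : ℝ)⁻¹ ≤ 1 := Nat.cast_inv_le_one n
  split_ifs
  · positivity
  · linarith

lemma maskLaw_singleton (m : Mask n) : maskLaw n {m} = ENNReal.ofReal (wt m) := by
  unfold maskLaw wt
  rw [Measure.pi_singleton, ENNReal.ofReal_prod_of_nonneg]
  · refine Finset.prod_congr rfl fun i _ => ?_
    cases h : m i
    · have h1 : (bernoulliMeasure true false (rate n)) {false} =
          unitInterval.toNNReal (unitInterval.symm (rate n)) := by
        apply bernoulliMeasure_apply_of_notMem_of_mem <;> simp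
      rw [h1]
      simp only [Bool.false_eq_true, if_false]
      rw [← ENNReal.ofReal_coe_nnreal]
      congr 1
    · have h1 : (bernoulliMeasure true false (rate n)) {true} =
          unitInterval.toNNReal (rate n) := by
        apply bernoulliMeasure_apply_of_mem_of_notMem <;> simp
      rw [h1]
      simp only [if_true]
      rw [← ENNReal.ofReal_coe_nnreal]
      congr 1
  · intro i _
    have h : (n : ℝ)⁻¹ ≤ 1 := Nat.cast_inv_le_one n
    split_ifs
    · positivity
    · linarith

/-- Expectation over one mask. -/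
noncomputable def E (f : Mask n → ℝ) : ℝ := ∑ m, wt m * f m

lemma E_prod (φ : Fin n → Bool → ℝ) :
    E (fun m => ∏ i, φ i (m i)) =
      ∏ i, ((n : ℝ)⁻¹ * φ i true + (1 - (n : ℝ)⁻¹) * φ i false) := by
  unfold E wt
  have h1 : ∀ i : Fin n, (n : ℝ)⁻¹ * φ i true + (1 - (n : ℝ)⁻¹) * φ i false =
      ∑ b : Bool, (if b then (n : ℝ)⁻¹ else 1 - (n : ℝ)⁻¹) * φ i b := by
    intro i; simp
  simp_rw [h1]
  rw [Finset.prod_univ_sum, Fintype.piFinset_univ]
  refine Finset.sum_congr rfl fun m _ => ?_
  rw [← Finset.prod_mul_distrib]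

lemma E_const (c : ℝ) : E (fun _ : Mask n => c) = c := by
  have h := E_prod (n := n) (fun _ _ => 1)
  simp only [Finset.prod_const_one, mul_one] at h
  have h2 : E (fun _ : Mask n => (1 : ℝ)) = 1 := by
    rw [h]; simp
  unfold E at h2 ⊢
  rw [← Finset.sum_mul]
  simp only [mul_one] at h2
  rw [h2, one_mul]

lemma E_add (f g : Mask n → ℝ) : E (fun m => f m + g m) = E f + E g := by
  unfold E; rw [← Finset.sum_add_distrib]; exact Finset.sum_congr rfl fun m _ => by ring

lemma E_sub (f g : Mask n → ℝ) : E (fun m => f m - g m) = E f - E g := by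
  unfold E; rw [← Finset.sum_sub_distrib]; exact Finset.sum_congr rfl fun m _ => by ring

lemma E_const_mul (c : ℝ) (f : Mask n → ℝ) : E (fun m => c * f m) = c * E f := by
  unfold E; rw [Finset.mul_sum]; exact Finset.sum_congr rfl fun m _ => by ring

lemma E_sum {ι : Type*} (s : Finset ι) (f : ι → Mask n → ℝ) :
    E (fun m => ∑ i ∈ s, f i m) = ∑ i ∈ s, E (f i) := by
  unfold E
  rw [Finset.sum_comm]
  exact Finset.sum_congr rfl fun m _ => by rw [Finset.mul_sum]

lemma E_mono {f g : Mask n → ℝ} (h : ∀ m, f m ≤ g m) : E f ≤ E g := by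
  unfold E
  exact Finset.sum_le_sum fun m _ => mul_le_mul_of_nonneg_left (h m) (wt_nonneg m)

lemma E_nonneg {f : Mask n → ℝ} (h : ∀ m, 0 ≤ f m) : 0 ≤ E f := by
  unfold E
  exact Finset.sum_nonneg fun m _ => mul_nonneg (wt_nonneg m) (h m)

/-- indicator that bit `i` is flipped -/
noncomputable def fl (i : Fin n) (m : Mask n) : ℝ := if m i then 1 else 0

lemma fl_nonneg (i : Fin n) (m : Mask n) : 0 ≤ fl i m := by
  unfold fl; split_ifs <;> norm_num

/-- all bits of `S` flipped, no bit of `R` flipped -/
lemma E_pattern (S R : Finset (Fin n)) (h : Disjoint S R) :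
    E (fun m => (∏ i ∈ S, fl i m) * ∏ i ∈ R, (1 - fl i m)) =
      ((n : ℝ)⁻¹) ^ S.card * (1 - (n : ℝ)⁻¹) ^ R.card := by
  classical
  have h1 := E_prod (n := n) (fun i b =>
    (if i ∈ S then (if b then 1 else 0) else 1) * (if i ∈ R then (if b then 0 else 1) else 1))
  have h2 : (fun m : Mask n => (∏ i ∈ S, fl i m) * ∏ i ∈ R, (1 - fl i m)) =
      fun m => ∏ i, ((if i ∈ S then (if m i then 1 else 0) else 1) *
        (if i ∈ R then (if m i then 0 else 1) else 1)) := by
    funext m
    rw [Finset.prod_mul_distrib]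
    congr 1
    · rw [← Finset.prod_filter_mul_prod_filter_not Finset.univ (· ∈ S)]
      rw [Finset.prod_congr rfl (fun i hi => by
        rw [if_neg (Finset.mem_filter.1 hi).2] : ∀ i ∈ Finset.univ.filter (fun i => ¬ i ∈ S),
          (if i ∈ S then (if m i then (1:ℝ) else 0) else 1) = 1)]
      rw [Finset.prod_const_one, mul_one]
      have : Finset.univ.filter (· ∈ S) = S := by ext; simp
      rw [this]
      exact Finset.prod_congr rfl fun i hi => by rw [if_pos hi]; rfl
    · rw [← Finset.prod_filter_mul_prod_filter_not Finset.univ (· ∈ R)]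
      rw [Finset.prod_congr rfl (fun i hi => by
        rw [if_neg (Finset.mem_filter.1 hi).2] : ∀ i ∈ Finset.univ.filter (fun i => ¬ i ∈ R),
          (if i ∈ R then (if m i then (0:ℝ) else 1) else 1) = 1)]
      rw [Finset.prod_const_one, mul_one]
      have : Finset.univ.filter (· ∈ R) = R := by ext; simp
      rw [this]
      refine Finset.prod_congr rfl fun i hi => ?_
      rw [if_pos hi]; unfold fl; split_ifs <;> norm_num
  rw [h2, h1]
  have h3 : ∀ i : Fin n, ((n : ℝ)⁻¹ * ((if i ∈ S then (if true = true then (1:ℝ) else 0) else 1) *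
        (if i ∈ R then (if true = true then 0 else 1) else 1)) +
      (1 - (n : ℝ)⁻¹) * ((if i ∈ S then (if false = true then 1 else 0) else 1) *
        (if i ∈ R then (if false = true then 0 else 1) else 1))) =
      (if i ∈ S then (n : ℝ)⁻¹ else 1) * (if i ∈ R then 1 - (n : ℝ)⁻¹ else 1) := by
    intro i
    by_cases hS : i ∈ S
    · have hR : i ∉ R := Finset.disjoint_left.1 h hS
      simp [hS, hR]
    · by_cases hR : i ∈ R
      · simp [hS, hR]
      · simp [hS, hR]
  rw [Finset.prod_congr rfl fun i _ => h3 i, Finset.prod_mul_distrib]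
  congr 1
  · rw [Finset.prod_ite_mem, Finset.univ_inter, Finset.prod_const]
  · rw [Finset.prod_ite_mem, Finset.univ_inter, Finset.prod_const]

lemma E_fl (i : Fin n) : E (fl i) = (n : ℝ)⁻¹ := by
  have h := E_pattern {i} (∅ : Finset (Fin n)) (by simp)
  simpa using h

lemma E_fl2 {i j : Fin n} (hij : i ≠ j) : E (fun m => fl i m * fl j m) = (n : ℝ)⁻¹ ^ 2 := by
  classical
  have h := E_pattern {i, j} (∅ : Finset (Fin n)) (by simp)
  simpa [Finset.prod_pair hij, Finset.card_pair hij] using h

lemma E_fl3 {i j k : Fin n} (hij : i ≠ j) (hik : i ≠ k) (hjk : j ≠ k) :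
    E (fun m => fl i m * fl j m * fl k m) = (n : ℝ)⁻¹ ^ 3 := by
  classical
  have h := E_pattern {i, j, k} (∅ : Finset (Fin n)) (by simp)
  have hc : ({i, j, k} : Finset (Fin n)).card = 3 := Finset.card_eq_three.2 ⟨i, j, k, hij, hik, hjk, rfl⟩
  rw [hc] at h
  rw [← mul_one ((n : ℝ)⁻¹ ^ 3)]
  simp only [Finset.prod_empty, mul_one, Finset.card_empty, pow_zero] at h ⊢
  rw [← h]
  congr 1
  funext m
  rw [Finset.prod_insert (by simp [hij, hik]), Finset.prod_pair hjk]
  ring

instance : MeasurableSpace (List (Mask n)) := ⊤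

lemma measurable_history (t : ℕ) : Measurable (fun ω : ℕ → Mask n => history ω t) := by
  induction t with
  | zero => exact measurable_const
  | succ t ih =>
    have h1 : Measurable (fun ω : ℕ → Mask n => (ω t, history ω t)) :=
      (measurable_pi_apply t).prodMk ih
    have h2 : Measurable (fun p : Mask n × List (Mask n) => p.1 :: p.2) := by
      apply measurable_from_prod_countable_right
      intro y
      exact measurable_of_countable _
    exact h2.comp h1

lemma history_congr {ω ω' : ℕ → Mask n} {t : ℕ} (h : ∀ s < t, ω s = ω' s) :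
    history ω t = history ω' t := by
  induction t with
  | zero => rfl
  | succ t ih =>
    simp only [history]
    rw [h t (Nat.lt_succ_self t), ih fun s hs => h s (Nat.lt_succ_of_lt hs)]

end Pool.Agent.helper80.EA
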