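import Pool.Agent.helper80.EA.Avg

set_option autoImplicit false

open MeasureTheory ProbabilityTheory
open scoped ENNReal

namespace Pool.Agent.helper80.EA

variable {n : ℕ}

open Classical in
/-- indicator of `thr ≤ f` -/
noncomputable def iCross (f : Mask n → ℝ) (thr : ℝ) (m : Mask n) : ℝ :=
  if thr ≤ f m then 1 else 0

open Classical in
/-- indicator of `thr ≤ f ≤ thr + U` -/
noncomputable def iHit (f : Mask n → ℝ) (thr U : ℝ) (m : Mask n) : ℝ :=
  if thr ≤ f m ∧ f m ≤ thr + U then 1 else 0

lemma iCross_le_one (f : Mask n → ℝ) (thr : ℝ) (m : Mask n) : iCross f thr m ≤ 1 := by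
  unfold iCross; split_ifs <;> norm_num
lemma iCross_nonneg (f : Mask n → ℝ) (thr : ℝ) (m : Mask n) : 0 ≤ iCross f thr m := by
  unfold iCross; split_ifs <;> norm_num
lemma iHit_nonneg (f : Mask n → ℝ) (thr U : ℝ) (m : Mask n) : 0 ≤ iHit f thr U m := by
  unfold iHit; split_ifs <;> norm_num

lemma crossing (f : Mask n → ℝ) (thr U : ℝ) (p : Fin n → ℝ) (l : List (Fin n)) (hl : l.Nodup)
    (hf : ∀ i ∈ l, ∀ m : Mask n, m i = false → f (Function.update m i true) = f m + p i)
    (hp : ∀ i ∈ l, p i ≤ U) (m : Mask n) (hm : ∀ i ∈ l, m i = false)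
    (hlt : f m < thr) :
    (1 - (n : ℝ)⁻¹) ^ l.length * avg (iCross f thr) l m ≤ avg (iHit f thr U) l m := by
  induction l generalizing m with
  | nil =>
    simp only [avg, List.length_nil, pow_zero, one_mul]
    unfold iCross
    rw [if_neg (not_le.2 hlt)]
    exact iHit_nonneg _ _ _ _
  | cons i l ih =>
    obtain ⟨hil, hl'⟩ := List.nodup_cons.1 hl
    obtain ⟨h0, h1⟩ := inv_bounds (n := n)
    have hi : m i = false := hm i (by simp)
    have e : Function.update m i false = m := by rw [← hi]; simp
    have hfm := hf i (by simp) m hi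
    have hm' : ∀ j ∈ l, (Function.update m i true) j = false := by
      intro j hj
      have hji : j ≠ i := fun h => hil (h ▸ hj)
      rw [Function.update_of_ne hji]
      exact hm j (by simp [hj])
    have ih' := ih hl' (fun j hj => hf j (by simp [hj])) (fun j hj => hp j (by simp [hj]))
    have hb := ih' m (fun j hj => hm j (by simp [hj])) hlt
    simp only [avg, avg1, List.length_cons]
    rw [e]
    set q : ℝ := (n : ℝ)⁻¹ with hq
    set K : ℝ := (1 - q) ^ l.length with hK
    have hK0 : 0 ≤ K := pow_nonneg (sub_nonneg.2 h1) _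
    set C' := avg (iCross f thr) l (Function.update m i true) with hC'
    set H' := avg (iHit f thr U) l (Function.update m i true) with hH'
    set C := avg (iCross f thr) l m with hC
    set H := avg (iHit f thr U) l m with hH
    have hC'0 : 0 ≤ C' := avg_nonneg (iCross_nonneg f thr) l _
    have hC0 : 0 ≤ C := avg_nonneg (iCross_nonneg f thr) l _
    have key : K * C' ≤ H' := by
      by_cases hc : f (Function.update m i true) < thr
      · exact ih' _ hm' hc
      · push Not at hc
        have h2 := le_avg_of_false (iHit_nonneg f thr U) l _ hm'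
        have h3 : iHit f thr U (Function.update m i true) = 1 := by
          unfold iHit
          rw [if_pos ⟨hc, by rw [hfm]; linarith [hp i (by simp)]⟩]
        rw [h3, mul_one] at h2
        have h4 : C' ≤ 1 := avg_le_one (iCross_le_one f thr) l _
        calc K * C' ≤ K * 1 := mul_le_mul_of_nonneg_left h4 hK0
          _ = K := mul_one K
          _ ≤ H' := h2
    have h1q : 0 ≤ 1 - q := sub_nonneg.2 h1
    have h1q1 : 1 - q ≤ 1 := by linarith
    have s1 : (1 - q) * (q * (K * C')) ≤ q * H' := by
      have a1 : q * (K * C') ≤ q * H' := mul_le_mul_of_nonneg_left key h0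
      have a2 : 0 ≤ q * (K * C') := by positivity
      calc (1 - q) * (q * (K * C')) ≤ 1 * (q * (K * C')) := mul_le_mul_of_nonneg_right h1q1 a2
        _ = q * (K * C') := one_mul _
        _ ≤ q * H' := a1
    have s2 : (1 - q) * ((1 - q) * (K * C)) ≤ (1 - q) * H := by
      have a1 : (1 - q) * (K * C) ≤ 1 * (K * C) :=
        mul_le_mul_of_nonneg_right h1q1 (mul_nonneg hK0 hC0)
      have a2 : (1 - q) * (K * C) ≤ H := by linarith
      exact mul_le_mul_of_nonneg_left a2 h1q
    rw [pow_succ]
    nlinarith

lemma flow_update_true (p : Fin n → ℝ) (x : Fin n → Bool) (b : Bool) (i : Fin n) (m : Mask n)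
    (hm : m i = false) :
    flow p x (Function.update m i true) b = flow p x m b + sg b (x i) * p i := by
  unfold flow
  rw [← Finset.add_sum_erase Finset.univ _ (Finset.mem_univ i),
    ← Finset.add_sum_erase Finset.univ (fun j => sg b (x j) * fl j m * p j) (Finset.mem_univ i)]
  have h1 : ∀ j ∈ Finset.univ.erase i, sg b (x j) * fl j (Function.update m i true) * p j =
      sg b (x j) * fl j m * p j := by
    intro j hj
    unfold fl
    rw [Function.update_of_ne (Finset.ne_of_mem_erase hj)]
  rw [Finset.sum_congr rfl h1]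
  have h2 : fl i (Function.update m i true) = 1 := by unfold fl; simp
  have h3 : fl i m = 0 := by unfold fl; simp [hm]
  rw [h2, h3]; ring

lemma flow_le_zero_of_clear (p : Fin n → ℝ) (x : Fin n → Bool) (b : Bool) (m : Mask n)
    (hp : ∀ i, 0 ≤ p i) (hm : ∀ i ∈ jobs x b, m i = false) : flow p x m b ≤ 0 := by
  unfold flow
  refine Finset.sum_nonpos fun i _ => ?_
  by_cases hi : x i = b
  · have : fl i m = 0 := by unfold fl; simp [hm i (mem_jobs.2 hi)]
    rw [this]; simp
  · unfold sg
    rw [if_neg hi]
    have h1 := fl_nonneg i m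
    have h2 := hp i
    have := mul_nonneg h1 h2
    linarith

/-- Overshooting is at most a constant times as likely as hitting. -/
lemma E_cross_le (p : Fin n → ℝ) (x : Fin n → Bool) (b : Bool) {U thr : ℝ} (hthr : 0 < thr)
    (hp : ∀ i, 0 ≤ p i) (hpU : ∀ i, p i ≤ U) :
    (1 - (n : ℝ)⁻¹) ^ (jobs x b).card * E (iCross (fun m => flow p x m b) thr) ≤
      E (iHit (fun m => flow p x m b) thr U) := by
  set l := (jobs x b).toList with hl
  have hlen : l.length = (jobs x b).card := Finset.length_toList _
  rw [← E_avg (iCross (fun m => flow p x m b) thr) l, ← E_avg (iHit _ thr U) l,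
    ← E_const_mul, ← hlen]
  refine E_mono fun m => ?_
  rw [← avg_clear (iCross _ thr), ← avg_clear (iHit _ thr U)]
  apply crossing (fun m => flow p x m b) thr U p l (Finset.nodup_toList _)
  · intro i hi m' hm'
    have hxi : x i = b := mem_jobs.1 (by simpa [hl] using hi)
    show flow p x (Function.update m' i true) b = flow p x m' b + p i
    rw [flow_update_true p x b i m' hm']
    unfold sg; rw [if_pos hxi, one_mul]
  · intro i _; exact hpU i
  · intro i hi; exact clear_mem l m hi
  · refine lt_of_le_of_lt (flow_le_zero_of_clear p x b _ hp ?_) hthr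
    intro i hi
    exact clear_mem l m (by simpa [hl] using hi)

end Pool.Agent.helper80.EA
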