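import Mathlib

/-!
# The (1+1) EA for two-machine makespan scheduling against an adversary: definitions
-/

set_option autoImplicit false

open MeasureTheory ProbabilityTheory
open scoped ENNReal

namespace Pool.Agent.helper80.EA

/-- A mutation mask on `n` bits: `m i = true` means that bit `i` is flipped. -/
abbrev Mask (n : ℕ) : Type := Fin n → Bool

/-- The mutation rate `1/n`, as a point of the unit interval. -/
noncomputable def rate (n : ℕ) : unitInterval :=
  ⟨(n : ℝ)⁻¹, by positivity, Nat.cast_inv_le_one n⟩

/-- The law of one mutation mask: the `n` bits are independent and each one is `true` (flipped)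
with probability `1/n`. -/
noncomputable def maskLaw (n : ℕ) : Measure (Mask n) :=
  Measure.pi fun _ => bernoulliMeasure true false (rate n)

/-- The law of the sequence of mutation masks of a run: independent masks, each with law
`maskLaw n`; the mask of iteration `t + 1` is the coordinate `ω t`. -/
noncomputable def runLaw (n : ℕ) : Measure (ℕ → Mask n) :=
  Measure.infinitePi fun _ => maskLaw n

/-- Total processing time that the solution `x` puts on machine `b`
(`false` is machine 1, `true` is machine 2). -/
noncomputable def load {n : ℕ} (p : Fin n → ℝ) (x : Fin n → Bool) (b : Bool) : ℝ :=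
  ∑ i, if x i = b then p i else 0

/-- The makespan of `x` under the processing times `p`. -/
noncomputable def makespan {n : ℕ} (p : Fin n → ℝ) (x : Fin n → Bool) : ℝ :=
  max (load p x false) (load p x true)

/-- The discrepancy `d(x)` of `x` under the processing times `p`. -/
noncomputable def disc {n : ℕ} (p : Fin n → ℝ) (x : Fin n → Bool) : ℝ :=
  |load p x false - load p x true|

/-- The offspring of `x` under the mask `m`: exactly the bits in `m` are flipped. -/
def mutate {n : ℕ} (x : Fin n → Bool) (m : Mask n) : Fin n → Bool :=
  fun i => xor (x i) (m i)

/-- Selection: the offspring `y` replaces `x` iff its makespan (under the current processing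
times `p`) is at most that of `x`. -/
noncomputable def select {n : ℕ} (p : Fin n → ℝ) (x y : Fin n → Bool) : Fin n → Bool :=
  if makespan p y ≤ makespan p x then y else x

/-- An adaptive adversary with processing times in `[L, U]`. Before each iteration it sees the
masks of all earlier iterations (most recent first); the initial data and the adversary being
fixed, these masks determine all earlier processing times, solutions and offspring, that is, the
whole history. It then changes nothing (`none`) or picks one job `i` and its new
processing time `v ∈ [L, U]` (`some (i, v)`). -/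
abbrev Adversary (n : ℕ) (L U : ℝ) : Type :=
  List (Mask n) → Option (Fin n × Set.Icc L U)

/-- The processing times after a move of the adversary. -/
noncomputable def reset {n : ℕ} {L U : ℝ} (p : Fin n → ℝ) :
    Option (Fin n × Set.Icc L U) → (Fin n → ℝ)
  | none => p
  | some (i, v) => Function.update p i v

/-- The configuration (processing times, solution) after the iterations whose masks are listed
(most recent first), from the initial configuration `(p₀, x₀)`. One iteration: the adversary
makes its move, then the (1+1) EA mutates and selects under the new processing times. -/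
noncomputable def config {n : ℕ} {L U : ℝ} (adv : Adversary n L U) (p₀ : Fin n → ℝ)
    (x₀ : Fin n → Bool) : List (Mask n) → (Fin n → ℝ) × (Fin n → Bool)
  | [] => (p₀, x₀)
  | m :: h =>
    (reset (config adv p₀ x₀ h).1 (adv h),
      select (reset (config adv p₀ x₀ h).1 (adv h)) (config adv p₀ x₀ h).2
        (mutate (config adv p₀ x₀ h).2 m))

/-- The masks of the first `t` iterations of the run `ω`, most recent first. -/
def history {n : ℕ} (ω : ℕ → Mask n) : ℕ → List (Mask n)
  | 0 => []
  | t + 1 => ω t :: history ω t

/-- The first iteration `t` after which the discrepancy is at most `U`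
(`0` if this holds initially, `∞` if it never happens). -/
noncomputable def hitTime {n : ℕ} {L U : ℝ} (adv : Adversary n L U) (p₀ : Fin n → ℝ)
    (x₀ : Fin n → Bool) (ω : ℕ → Mask n) : ℝ≥0∞ :=
  ⨅ (t : ℕ) (_ : disc (config adv p₀ x₀ (history ω t)).1 (config adv p₀ x₀ (history ω t)).2 ≤ U),
    (t : ℝ≥0∞)

/-- The expected hitting time `𝔼[T]`. -/
noncomputable def expTime {n : ℕ} {L U : ℝ} (adv : Adversary n L U) (p₀ : Fin n → ℝ)
    (x₀ : Fin n → Bool) : ℝ≥0∞ :=
  ∫⁻ ω, hitTime adv p₀ x₀ ω ∂(runLaw n)

/-- `T*(n)`: the supremum of `𝔼[T]` over all `0 < L ≤ U`, all initial processing times in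
`[L, U]`, all initial solutions and all adaptive adversaries. -/
noncomputable def Tstar (n : ℕ) : ℝ≥0∞ :=
  ⨆ (L : ℝ) (U : ℝ) (_ : 0 < L) (_ : L ≤ U) (p₀ : Fin n → Set.Icc L U) (x₀ : Fin n → Bool)
    (adv : Adversary n L U), expTime adv (fun i => (p₀ i : ℝ)) x₀

end Pool.Agent.helper80.EA
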