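import Pool.Agent.helper80.EA.LowerE

set_option autoImplicit false

open MeasureTheory ProbabilityTheory
open scoped ENNReal

namespace Pool.Agent.helper80.EA

variable {n : ℕ}

lemma tgt_mem (hn : 0 < n) (c : Bool) : tgt n c ∈ Set.Icc (lo n) 1 := by
  unfold tgt
  split_ifs
  · exact ⟨lo_le_one hn, le_rfl⟩
  · exact ⟨le_rfl, lo_le_one hn⟩

open Classical in
/-- the adversary's move: repair one wrongly set job -/
noncomputable def move (hn : 0 < n) (p : Fin n → ℝ) (x : Fin n → Bool) :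
    Option (Fin n × Set.Icc (lo n) 1) :=
  if h : ∃ i, p i ≠ tgt n (x i) then
    some (h.choose, ⟨tgt n (x h.choose), tgt_mem hn _⟩) else none

/-- configurations under this strategy -/
noncomputable def conf (hn : 0 < n) (p₀ : Fin n → ℝ) (x₀ : Fin n → Bool) :
    List (Mask n) → (Fin n → ℝ) × (Fin n → Bool)
  | [] => (p₀, x₀)
  | m :: h =>
    (reset (conf hn p₀ x₀ h).1 (move hn (conf hn p₀ x₀ h).1 (conf hn p₀ x₀ h).2),
      select (reset (conf hn p₀ x₀ h).1 (move hn (conf hn p₀ x₀ h).1 (conf hn p₀ x₀ h).2))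
        (conf hn p₀ x₀ h).2 (mutate (conf hn p₀ x₀ h).2 m))

/-- the adversary -/
noncomputable def advL (hn : 0 < n) (p₀ : Fin n → ℝ) (x₀ : Fin n → Bool) :
    Adversary n (lo n) 1 :=
  fun h => move hn (conf hn p₀ x₀ h).1 (conf hn p₀ x₀ h).2

lemma config_advL (hn : 0 < n) (p₀ : Fin n → ℝ) (x₀ : Fin n → Bool) (h : List (Mask n)) :
    config (advL hn p₀ x₀) p₀ x₀ h = conf hn p₀ x₀ h := by
  induction h with
  | nil => rfl
  | cons m h ih => simp only [config, conf, ih]; rfl

/-- processing times only take the two values -/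
def Two (p : Fin n → ℝ) : Prop := ∀ i, p i = 1 ∨ p i = lo n

lemma tgt_two (c : Bool) : tgt n c = 1 ∨ tgt n c = lo n := by
  unfold tgt; split_ifs <;> simp

lemma two_reset (hn : 0 < n) {p : Fin n → ℝ} (x : Fin n → Bool) (hp : Two p) :
    Two (reset p (move hn p x)) := by
  classical
  unfold move
  split_ifs with h
  · intro i
    simp only [reset]
    by_cases hi : i = h.choose
    · subst hi; rw [Function.update_self]; exact tgt_two _
    · rw [Function.update_of_ne hi]; exact hp i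
  · exact hp

lemma wr_update (p : Fin n → ℝ) (x : Fin n → Bool) (i : Fin n) :
    wr (Function.update p i (tgt n (x i))) x = (wr p x).erase i := by
  classical
  ext j
  simp only [wr, Finset.mem_filter, Finset.mem_univ, true_and, Finset.mem_erase]
  by_cases hj : j = i
  · subst hj; simp
  · rw [Function.update_of_ne hj]; simp [hj]

lemma wr_reset (hn : 0 < n) (p : Fin n → ℝ) (x : Fin n → Bool) :
    (wr (reset p (move hn p x)) x).card = (wr p x).card - 1 := by
  classical
  unfold move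
  split_ifs with h
  · have h1 : wr (reset p (some (h.choose, (⟨tgt n (x h.choose), tgt_mem hn _⟩ :
        Set.Icc (lo n) 1)))) x = (wr p x).erase h.choose := wr_update p x _
    rw [h1, Finset.card_erase_of_mem]
    simp only [wr, Finset.mem_filter, Finset.mem_univ, true_and]
    exact h.choose_spec
  · have h1 : wr p x = ∅ := by
      simp only [wr]
      rw [Finset.filter_eq_empty_iff]
      intro i _ hi
      exact h ⟨i, hi⟩
    simp only [reset]
    rw [h1]; rfl

lemma two_conf (hn : 0 < n) {p₀ : Fin n → ℝ} (x₀ : Fin n → Bool) (hp : Two p₀)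
    (h : List (Mask n)) : Two (conf hn p₀ x₀ h).1 := by
  induction h with
  | nil => exact hp
  | cons m h ih => exact two_reset hn _ ih

/-- the region -/
def Reg (k : ℕ) (s : (Fin n → ℝ) × (Fin n → Bool)) : Prop :=
  pot k s.1 s.2 < (k : ℝ) ^ 2 / 4

lemma reg_facts {k : ℕ} {p : Fin n → ℝ} {x : Fin n → Bool}
    (hr : pot k p x < (k : ℝ) ^ 2 / 4) :
    |((jobs x false).card : ℝ) - k| ≤ k / 2 ∧ ((wr p x).card : ℝ) ≤ k / 5 := by
  unfold pot at hr
  have hk : (0 : ℝ) ≤ k := by positivity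
  constructor
  · apply abs_le_of_sq_le_sq _ (by positivity)
    have : (0 : ℝ) ≤ 8 * ((wr p x).card : ℝ) ^ 2 := by positivity
    nlinarith
  · apply le_of_sq_le_sq _ (by positivity)
    have : (0 : ℝ) ≤ (((jobs x false).card : ℝ) - k) ^ 2 := by positivity
    nlinarith

lemma card_sA_sC (p : Fin n → ℝ) (x : Fin n → Bool) :
    (sA p x).card + (wr p x).card = (jobs x false).card + (sC p x).card := by
  rw [card_wr, card_jobs_false p x]; ring

lemma one_lt_disc (hn : 0 < n) {k : ℕ} (hk : 10 ≤ k) {p : Fin n → ℝ} {x : Fin n → Bool}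
    (hp : Two p) (hr : pot k p x < (k : ℝ) ^ 2 / 4) : 1 < disc p x := by
  obtain ⟨h1, h2⟩ := reg_facts hr
  have h3 := card_sA_sC p x
  have h3' : ((sA p x).card : ℝ) + (wr p x).card = (jobs x false).card + (sC p x).card := by
    exact_mod_cast h3
  have hk' : (10 : ℝ) ≤ k := by exact_mod_cast hk
  have h4 : ((sC p x).card : ℝ) + 2 ≤ (sA p x).card := by
    have := (abs_le.1 h1).1
    linarith
  have h5 := one_lt_dif hn p x hp (by exact_mod_cast h4)
  rw [disc_eq p x false]
  exact h5.trans_le (le_abs_self _)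

lemma arith_step {k n r W a b c q1 q0 : ℝ} (hk : 22 ≤ k) (hkn : k ^ 2 ≤ n) (hn : 0 < n)
    (hr : r = n⁻¹) (ha0 : 0 ≤ a) (hb0 : 0 ≤ b) (hc0 : 0 ≤ c) (hW0 : 0 ≤ W) (hq10 : 0 ≤ q1)
    (h3 : a + q1 = W + c) (h4 : q1 = b + c) (h1 : |W - k| ≤ k / 2) (h2 : q0 ≤ k / 5)
    (hle : q1 ≤ q0) (hq : 8 * q1 ^ 2 + 8 * q1 ≤ 8 * q0 ^ 2) :
    (W - k) ^ 2 + 8 * q1 ^ 2 + 2 * |W - k| * (b * r + a * (W + a + 2 * c) * r ^ 2)
      + (9 + 16 * q1) * (7 * W * r) ≤ (W - k) ^ 2 + 8 * q0 ^ 2 + 100 * k * r := by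
  have hnr : n * r = 1 := by rw [hr]; exact mul_inv_cancel₀ hn.ne'
  have hr0 : 0 < r := by rw [hr]; positivity
  have hk0 : 0 ≤ k := by linarith
  have hlow := (abs_le.1 h1).1
  have hupp := (abs_le.1 h1).2
  have haW : a ≤ W := by linarith
  have hW2 : W ≤ 3 / 2 * k := by linarith
  have hk2r : k ^ 2 * r ≤ 1 := by
    calc k ^ 2 * r ≤ n * r := mul_le_mul_of_nonneg_right hkn hr0.le
      _ = 1 := hnr
  have hkr : 22 * (k * r) ≤ 1 := by
    have h22 : 22 * k ≤ k ^ 2 := by nlinarith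
    have := mul_le_mul_of_nonneg_right h22 hr0.le
    linarith
  have hR : b * r + a * (W + a + 2 * c) * r ^ 2 ≤ q1 * r + 5.1 * r := by
    have e1 : b * r ≤ q1 * r := mul_le_mul_of_nonneg_right (by linarith) hr0.le
    have e2 : a * (W + a + 2 * c) ≤ 5.1 * k ^ 2 := by
      have e3 : W + a + 2 * c ≤ 3.4 * k := by linarith
      have e4 : a ≤ 1.5 * k := by linarith
      calc a * (W + a + 2 * c) ≤ (1.5 * k) * (3.4 * k) := by
            apply mul_le_mul e4 e3 (by positivity) (by positivity)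
        _ = 5.1 * k ^ 2 := by ring
    have e5 : a * (W + a + 2 * c) * r ^ 2 ≤ 5.1 * k ^ 2 * r ^ 2 :=
      mul_le_mul_of_nonneg_right e2 (by positivity)
    have e6 : 5.1 * k ^ 2 * r ^ 2 = 5.1 * r * (k ^ 2 * r) := by ring
    have e7 : 5.1 * r * (k ^ 2 * r) ≤ 5.1 * r * 1 :=
      mul_le_mul_of_nonneg_left hk2r (by positivity)
    linarith
  have hR0 : 0 ≤ b * r + a * (W + a + 2 * c) * r ^ 2 := by positivity
  have t1 : 2 * |W - k| * (b * r + a * (W + a + 2 * c) * r ^ 2) ≤ k * (q1 * r + 5.1 * r) := by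
    apply mul_le_mul _ hR hR0 hk0
    linarith
  have t2 : (9 + 16 * q1) * (7 * W * r) ≤ (9 + 16 * q1) * (10.5 * k * r) := by
    apply mul_le_mul_of_nonneg_left _ (by positivity)
    apply mul_le_mul_of_nonneg_right _ hr0.le
    linarith
  have t3 : 169 * (q1 * (k * r)) ≤ 8 * q1 := by
    have : q1 * (22 * (k * r)) ≤ q1 * 1 := mul_le_mul_of_nonneg_left hkr hq10
    linarith
  have t4 : 0 ≤ k * r := mul_nonneg hk0 hr0.le
  nlinarith

lemma step_region (hn : 0 < n) {k : ℕ} (hk : 22 ≤ k) (hkn : k ^ 2 ≤ n) {p : Fin n → ℝ}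
    {x : Fin n → Bool} (hp : Two p) (hr : pot k p x < (k : ℝ) ^ 2 / 4) :
    E (fun m => pot k (reset p (move hn p x)) (select (reset p (move hn p x)) x (mutate x m))) ≤
      pot k p x + 100 * k * (n : ℝ)⁻¹ := by
  obtain ⟨h1, h2⟩ := reg_facts hr
  have hp' := two_reset hn x hp
  have hw := wr_reset hn p x
  generalize reset p (move hn p x) = p' at hp' hw ⊢
  have h3 : ((sA p' x).card : ℝ) + (wr p' x).card = (jobs x false).card + (sC p' x).card := by
    exact_mod_cast card_sA_sC p' x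
  have h4 : ((wr p' x).card : ℝ) = (sB p' x).card + (sC p' x).card := by
    exact_mod_cast card_wr p' x
  have hk' : (22 : ℝ) ≤ k := by exact_mod_cast hk
  have hkn' : (k : ℝ) ^ 2 ≤ n := by exact_mod_cast hkn
  have hn' : (0 : ℝ) < n := by exact_mod_cast hn
  have hwle : (wr p' x).card ≤ (wr p x).card := by omega
  have hwle' : ((wr p' x).card : ℝ) ≤ (wr p x).card := by exact_mod_cast hwle
  have hlow := (abs_le.1 h1).1
  have hac : (sC p' x).card + 2 ≤ (sA p' x).card := by
    have : ((sC p' x).card : ℝ) + 2 ≤ (sA p' x).card := by linarith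
    exact_mod_cast this
  have hmain := E_pot_select_le hn k p' x hp' hac
  refine hmain.trans ?_
  have hpot : pot k p' x = ((jobs x false).card - (k : ℝ)) ^ 2 + 8 * ((wr p' x).card : ℝ) ^ 2 := rfl
  have hpot0 : pot k p x = ((jobs x false).card - (k : ℝ)) ^ 2 + 8 * ((wr p x).card : ℝ) ^ 2 := rfl
  -- relation between the numbers of wrong jobs before and after the move
  have hq : 8 * ((wr p' x).card : ℝ) ^ 2 + 8 * ((wr p' x).card : ℝ) ≤
      8 * ((wr p x).card : ℝ) ^ 2 := by
    rcases Nat.eq_zero_or_pos (wr p x).card with h0 | h0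
    · have : (wr p' x).card = 0 := by omega
      rw [h0, this, Nat.cast_zero]
      norm_num
    · have e : (wr p x).card = (wr p' x).card + 1 := by omega
      rw [e]; push_cast
      have : (0 : ℝ) ≤ (wr p' x).card := Nat.cast_nonneg _
      nlinarith
  unfold Rb
  rw [hpot, hpot0]
  exact arith_step hk' hkn' hn' rfl (Nat.cast_nonneg _) (Nat.cast_nonneg _) (Nat.cast_nonneg _)
    (Nat.cast_nonneg _) (Nat.cast_nonneg _) h3 h4 h1 h2 hwle' hq

end Pool.Agent.helper80.EA
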