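import Pool.Agent.helper80.EA.LowerStep

set_option autoImplicit false

open MeasureTheory ProbabilityTheory
open scoped ENNReal

namespace Pool.Agent.helper80.EA

variable {n : ℕ}

/-- the drift bound -/
noncomputable def Rb (n : ℕ) (p : Fin n → ℝ) (x : Fin n → Bool) : ℝ :=
  (sB p x).card * (n : ℝ)⁻¹ + (sA p x).card * ((jobs x false).card + (sA p x).card
    + 2 * (sC p x).card) * (n : ℝ)⁻¹ ^ 2

lemma E_accI_dW_le (hn : 0 < n) (p : Fin n → ℝ) (x : Fin n → Bool)
    (hp : ∀ i, p i = 1 ∨ p i = lo n) (hac : (sC p x).card + 2 ≤ (sA p x).card) :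
    E (fun m => accI p x m * dW p x m) ≤ Rb n p x := by
  refine (E_mono (accI_dW_le hn p x hp hac)).trans ?_
  have hdj : Disjoint (jobs x true) (jobs x false) := by
    rw [Finset.disjoint_left]; intro i h1 h2
    rw [mem_jobs] at h1 h2; rw [h1] at h2; exact absurd h2 (by simp)
  rw [E_add, E_add, E_sub, E_cnt_mul hdj, E_cnt, E_cnt_mul_pred, E_cnt_mul (disj_AC p x)]
  unfold Rb
  have h1 := card_jobs_false p x
  have h2 := card_jobs_add x
  have h1' : ((jobs x false).card : ℝ) = (sA p x).card + (sB p x).card := by exact_mod_cast h1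
  have h2' : ((jobs x false).card : ℝ) + (jobs x true).card = n := by exact_mod_cast h2
  have hn' : (0 : ℝ) < n := by exact_mod_cast hn
  have e1 : ((jobs x true).card : ℝ) = n - (jobs x false).card := by linarith
  rw [e1, h1']
  set a : ℝ := ((sA p x).card : ℝ) with ha
  set b : ℝ := ((sB p x).card : ℝ) with hb
  set c : ℝ := ((sC p x).card : ℝ) with hc
  have ha0 : 0 ≤ a := by positivity
  have hb0 : 0 ≤ b := by positivity
  have hc0 : 0 ≤ c := by positivity
  set q : ℝ := (n : ℝ)⁻¹ with hq
  have hnq : (n : ℝ) * q = 1 := mul_inv_cancel₀ hn'.ne'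
  have hq0 : 0 ≤ q := by positivity
  have e2 : ((n : ℝ) - (a + b)) * (a + b) * q ^ 2 = (a + b) * q - (a + b) ^ 2 * q ^ 2 := by
    have : (n : ℝ) * (a + b) * q ^ 2 = (a + b) * q := by
      calc (n : ℝ) * (a + b) * q ^ 2 = ((n : ℝ) * q) * ((a + b) * q) := by ring
        _ = (a + b) * q := by rw [hnq, one_mul]
    nlinarith
  rw [e2]
  have h3 : 0 ≤ q ^ 2 * (a * b) := by positivity
  have h4 : 0 ≤ q ^ 2 * (a * c) := by positivity
  have h5 : 0 ≤ q ^ 2 * a := by positivity
  have h6 : 0 ≤ q ^ 2 * (a * a) := by positivity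
  have h7 : 0 ≤ q ^ 2 * (b * b) := by positivity
  nlinarith

lemma le_E_accI_dW (hn : 0 < n) (p : Fin n → ℝ) (x : Fin n → Bool)
    (hp : ∀ i, p i = 1 ∨ p i = lo n) (hac : (sC p x).card + 2 ≤ (sA p x).card) :
    - Rb n p x ≤ E (fun m => accI p x m * dW p x m) := by
  refine le_trans ?_ (E_mono (le_accI_dW hn p x hp hac))
  rw [E_sub, E_sub, E_sub, E_sub, E_cnt_mul (disj_AD p x).symm, E_cnt, E_cnt,
    E_cnt_mul_mul_pred (disj_AD p x).symm,
    E_cnt_mul_mul (disj_AD p x).symm (disj_CD p x).symm (disj_AC p x)]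
  unfold Rb
  have h1 := card_jobs_false p x
  have h2 := card_jobs_add x
  have h3 := card_jobs_true p x
  have h1' : ((jobs x false).card : ℝ) = (sA p x).card + (sB p x).card := by exact_mod_cast h1
  have h2' : ((jobs x false).card : ℝ) + (jobs x true).card = n := by exact_mod_cast h2
  have h3' : ((jobs x true).card : ℝ) = (sC p x).card + (sD p x).card := by exact_mod_cast h3
  have hn' : (0 : ℝ) < n := by exact_mod_cast hn
  have e1 : ((sD p x).card : ℝ) = n - (sA p x).card - (sB p x).card - (sC p x).card := by linarith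
  have hdn : ((sD p x).card : ℝ) ≤ n := by
    have : (sD p x).card ≤ n := card_finset_fin_le _
    exact_mod_cast this
  have hac' : ((sC p x).card : ℝ) + 2 ≤ (sA p x).card := by exact_mod_cast hac
  rw [h1']
  set a : ℝ := ((sA p x).card : ℝ) with ha
  set b : ℝ := ((sB p x).card : ℝ) with hb
  set c : ℝ := ((sC p x).card : ℝ) with hc
  set d : ℝ := ((sD p x).card : ℝ) with hd
  have ha0 : 0 ≤ a := by positivity
  have hb0 : 0 ≤ b := by positivity
  have hc0 : 0 ≤ c := by positivity
  have hd0 : 0 ≤ d := by positivity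
  set q : ℝ := (n : ℝ)⁻¹ with hq
  have hnq : (n : ℝ) * q = 1 := mul_inv_cancel₀ hn'.ne'
  have hq0 : 0 ≤ q := by positivity
  have hdq : d * q ≤ 1 := by nlinarith
  have hdq0 : 0 ≤ d * q := by positivity
  -- d a q^2 = a q - a (a+b+c) q^2
  have e2 : d * a * q ^ 2 = a * q - a * (a + b + c) * q ^ 2 := by
    rw [e1]
    have : (n : ℝ) * a * q ^ 2 = a * q := by
      calc (n : ℝ) * a * q ^ 2 = ((n : ℝ) * q) * (a * q) := by ring
        _ = a * q := by rw [hnq, one_mul]
    nlinarith
  have e3 : d * (a * (a - 1)) * q ^ 3 + d * a * c * q ^ 3 ≤ a * (a + c) * q ^ 2 := by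
    have h4 : 0 ≤ a * (a - 1) + a * c := by nlinarith [mul_nonneg ha0 hc0]
    have h5 : (d * q) * ((a * (a - 1) + a * c) * q ^ 2) ≤ 1 * ((a * (a - 1) + a * c) * q ^ 2) :=
      mul_le_mul_of_nonneg_right hdq (by positivity)
    have h6 : 0 ≤ q ^ 2 * a := by positivity
    nlinarith
  nlinarith

lemma accI_nonneg (p : Fin n → ℝ) (x : Fin n → Bool) (m : Mask n) : 0 ≤ accI p x m := by
  unfold accI; split_ifs <;> norm_num

lemma accI_le_one (p : Fin n → ℝ) (x : Fin n → Bool) (m : Mask n) : accI p x m ≤ 1 := by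
  unfold accI; split_ifs <;> norm_num

lemma E_accI_sq_le (hn : 0 < n) (p : Fin n → ℝ) (x : Fin n → Bool)
    (hp : ∀ i, p i = 1 ∨ p i = lo n) (hac : (sC p x).card + 2 ≤ (sA p x).card) :
    E (fun m => accI p x m * (cnt Finset.univ m : ℝ) ^ 2) ≤
      7 * (jobs x false).card * (n : ℝ)⁻¹ := by
  apply E_sq_le hn
  · intro m h
    rw [cnt_jobs_false p x] at h
    by_cases ha : acc p x m
    · have h1 := zero_of_acc hn p x hp hac m ha (by omega) (by omega)
      have h2 : cnt Finset.univ m = 0 := by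
        rw [cnt_univ_eq x m, cnt_jobs_false p x, cnt_jobs_true p x]; omega
      rw [h2]; simp
    · unfold accI; rw [if_neg ha]; simp
  · intro m
    have h1 := accI_le_one p x m
    have h2 : (0 : ℝ) ≤ (cnt Finset.univ m : ℝ) ^ 2 := by positivity
    nlinarith

lemma wr_mutate_card_le (p : Fin n → ℝ) (x : Fin n → Bool) (m : Mask n) :
    (wr p (mutate x m)).card ≤ (wr p x).card + cnt Finset.univ m := by
  classical
  have h : wr p (mutate x m) ⊆ wr p x ∪ Finset.univ.filter (fun i => m i = true) := by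
    intro i hi
    simp only [wr, Finset.mem_union, Finset.mem_filter, Finset.mem_univ, true_and] at hi ⊢
    by_cases hm : m i = true
    · right; exact hm
    · left
      unfold mutate at hi
      simpa [hm] using hi
  exact (Finset.card_le_card h).trans (Finset.card_union_le _ _)

/-- value of the potential after selection, bounded by a quadratic in the number of flips -/
lemma pot_select_le (k : ℝ) (p : Fin n → ℝ) (x : Fin n → Bool) (m : Mask n) :
    pot k p (select p x (mutate x m)) ≤ pot k p x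
      + 2 * ((jobs x false).card - k) * (accI p x m * dW p x m)
      + (9 + 16 * (wr p x).card) * (accI p x m * (cnt Finset.univ m : ℝ) ^ 2) := by
  by_cases ha : acc p x m
  · rw [select_of_acc ha]
    have hI : accI p x m = 1 := by unfold accI; rw [if_pos ha]
    rw [hI, one_mul, one_mul]
    have h1 := jobs_mutate_card x m false
    have h1' : ((jobs (mutate x m) false).card : ℝ) + cnt (jobs x false) m =
        (jobs x false).card + cnt (jobs x true) m := by exact_mod_cast h1
    have h2 : ((jobs (mutate x m) false).card : ℝ) = (jobs x false).card + dW p x m := by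
      unfold dW
      rw [cnt_jobs_false p x, cnt_jobs_true p x] at h1'
      push_cast at h1'
      linarith
    have h3 : ((wr p (mutate x m)).card : ℝ) ≤ (wr p x).card + cnt Finset.univ m := by
      exact_mod_cast wr_mutate_card_le p x m
    have h4 : (cnt Finset.univ m : ℝ) = cnt (sA p x) m + cnt (sB p x) m
        + (cnt (sC p x) m + cnt (sD p x) m) := by
      rw [cnt_univ_eq x m, cnt_jobs_false p x, cnt_jobs_true p x]; push_cast; ring
    have h5 : (dW p x m) ^ 2 ≤ (cnt Finset.univ m : ℝ) ^ 2 := by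
      rw [h4]; unfold dW
      have a0 : (0 : ℝ) ≤ cnt (sA p x) m := by positivity
      have b0 : (0 : ℝ) ≤ cnt (sB p x) m := by positivity
      have c0 : (0 : ℝ) ≤ cnt (sC p x) m := by positivity
      have d0 : (0 : ℝ) ≤ cnt (sD p x) m := by positivity
      apply sq_le_sq'
      · linarith
      · linarith
    have h6 : (cnt Finset.univ m : ℝ) ≤ (cnt Finset.univ m : ℝ) ^ 2 := by
      have : (cnt Finset.univ m) ≤ (cnt Finset.univ m) ^ 2 := Nat.le_self_pow (by norm_num) _
      exact_mod_cast this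
    unfold pot
    rw [h2]
    have q0 : (0 : ℝ) ≤ (wr p x).card := by positivity
    have q1 : (0 : ℝ) ≤ (wr p (mutate x m)).card := by positivity
    have J0 : (0 : ℝ) ≤ (cnt Finset.univ m : ℝ) := by positivity
    have h7 : ((wr p (mutate x m)).card : ℝ) ^ 2 ≤ ((wr p x).card + cnt Finset.univ m : ℝ) ^ 2 :=
      pow_le_pow_left₀ q1 h3 2
    nlinarith [mul_le_mul_of_nonneg_left h6 q0]
  · rw [select_of_not_acc ha]
    have hI : accI p x m = 0 := by unfold accI; rw [if_neg ha]
    rw [hI]; simp

lemma E_pot_select_le (hn : 0 < n) (k : ℝ) (p : Fin n → ℝ) (x : Fin n → Bool)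
    (hp : ∀ i, p i = 1 ∨ p i = lo n) (hac : (sC p x).card + 2 ≤ (sA p x).card) :
    E (fun m => pot k p (select p x (mutate x m))) ≤ pot k p x
      + 2 * |(jobs x false).card - k| * Rb n p x
      + (9 + 16 * (wr p x).card) * (7 * (jobs x false).card * (n : ℝ)⁻¹) := by
  refine (E_mono (pot_select_le k p x)).trans ?_
  rw [E_add, E_add, E_const, E_const_mul, E_const_mul]
  have h1 := E_accI_dW_le hn p x hp hac
  have h2 := le_E_accI_dW hn p x hp hac
  have h3 := E_accI_sq_le hn p x hp hac
  have h4 : ((jobs x false).card - k) * E (fun m => accI p x m * dW p x m) ≤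
      |(jobs x false).card - k| * Rb n p x := by
    refine (le_abs_self _).trans ?_
    rw [abs_mul]
    exact mul_le_mul_of_nonneg_left (abs_le.2 ⟨h2, h1⟩) (abs_nonneg _)
  have h5 : (9 + 16 * ((wr p x).card : ℝ)) * E (fun m => accI p x m * (cnt Finset.univ m : ℝ) ^ 2)
      ≤ (9 + 16 * (wr p x).card) * (7 * (jobs x false).card * (n : ℝ)⁻¹) :=
    mul_le_mul_of_nonneg_left h3 (by positivity)
  linarith

end Pool.Agent.helper80.EA
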