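import Pool.Agent.helper80.EA.Lower

set_option autoImplicit false

open MeasureTheory ProbabilityTheory
open scoped ENNReal

namespace Pool.Agent.helper80.EA

variable {n : ℕ}

/-- the run has stayed in the region so far -/
def InG (hn : 0 < n) (k : ℕ) (p₀ : Fin n → ℝ) (x₀ : Fin n → Bool) : List (Mask n) → Prop
  | [] => Reg k (conf hn p₀ x₀ [])
  | m :: h => InG hn k p₀ x₀ h ∧ Reg k (conf hn p₀ x₀ (m :: h))

lemma reg_of_inG (hn : 0 < n) {k : ℕ} {p₀ : Fin n → ℝ} {x₀ : Fin n → Bool}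
    {h : List (Mask n)} (hh : InG hn k p₀ x₀ h) : Reg k (conf hn p₀ x₀ h) := by
  cases h with
  | nil => exact hh
  | cons m h => exact hh.2

open Classical in
/-- capped potential along the run -/
noncomputable def Vp (hn : 0 < n) (k : ℕ) (p₀ : Fin n → ℝ) (x₀ : Fin n → Bool)
    (h : List (Mask n)) : ℝ :=
  if InG hn k p₀ x₀ h then pot k (conf hn p₀ x₀ h).1 (conf hn p₀ x₀ h).2 else (k : ℝ) ^ 2 / 4

lemma pot_nonneg (k : ℝ) (p : Fin n → ℝ) (x : Fin n → Bool) : 0 ≤ pot k p x := by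
  unfold pot; positivity

lemma Vp_nonneg (hn : 0 < n) (k : ℕ) (p₀ : Fin n → ℝ) (x₀ : Fin n → Bool)
    (h : List (Mask n)) : 0 ≤ Vp hn k p₀ x₀ h := by
  unfold Vp
  split_ifs
  · exact pot_nonneg _ _ _
  · positivity

lemma Vp_step (hn : 0 < n) {k : ℕ} (hk : 22 ≤ k) (hkn : k ^ 2 ≤ n) {p₀ : Fin n → ℝ}
    (x₀ : Fin n → Bool) (hp : Two p₀) (h : List (Mask n)) :
    E (fun m => Vp hn k p₀ x₀ (m :: h)) ≤ Vp hn k p₀ x₀ h + 100 * k * (n : ℝ)⁻¹ := by
  by_cases hG : InG hn k p₀ x₀ h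
  · have h1 : ∀ m, Vp hn k p₀ x₀ (m :: h) ≤
        pot k (conf hn p₀ x₀ (m :: h)).1 (conf hn p₀ x₀ (m :: h)).2 := by
      intro m
      unfold Vp
      split_ifs with h2
      · exact le_rfl
      · by_contra h3
        push Not at h3
        exact h2 ⟨hG, h3⟩
    refine (E_mono h1).trans ?_
    have h2 := step_region hn hk hkn (two_conf hn x₀ hp h) (reg_of_inG hn hG)
    have h3 : Vp hn k p₀ x₀ h = pot k (conf hn p₀ x₀ h).1 (conf hn p₀ x₀ h).2 := by
      unfold Vp; rw [if_pos hG]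
    rw [h3]
    exact h2
  · have h1 : ∀ m, Vp hn k p₀ x₀ (m :: h) = Vp hn k p₀ x₀ h := by
      intro m
      unfold Vp
      rw [if_neg hG, if_neg (fun h' => hG h'.1)]
    simp_rw [h1]
    rw [E_const]
    have : (0 : ℝ) ≤ 100 * k * (n : ℝ)⁻¹ := by positivity
    linarith

lemma inG_history (hn : 0 < n) {k : ℕ} {p₀ : Fin n → ℝ} {x₀ : Fin n → Bool}
    {ω : ℕ → Mask n} {N : ℕ} (h : InG hn k p₀ x₀ (history ω N)) {t : ℕ} (ht : t ≤ N) :
    InG hn k p₀ x₀ (history ω t) := by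
  induction N with
  | zero => have : t = 0 := by omega
            subst this; exact h
  | succ N ih =>
    rcases Nat.lt_or_ge t (N + 1) with h1 | h1
    · exact ih h.1 (by omega)
    · have : t = N + 1 := by omega
      subst this; exact h

lemma le_hitTime (hn : 0 < n) {k : ℕ} (hk : 10 ≤ k) {p₀ : Fin n → ℝ} {x₀ : Fin n → Bool}
    (hp : Two p₀) {ω : ℕ → Mask n} {N : ℕ} (h : InG hn k p₀ x₀ (history ω N)) :
    ((N + 1 : ℕ) : ℝ≥0∞) ≤ hitTime (advL hn p₀ x₀) p₀ x₀ ω := by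
  unfold hitTime
  refine le_iInf fun t => le_iInf fun ht => ?_
  by_contra hlt
  push Not at hlt
  have h1 : t < N + 1 := by exact_mod_cast hlt
  have h2 := inG_history hn h (Nat.lt_succ_iff.1 h1)
  have h3 := one_lt_disc hn hk (two_conf hn x₀ hp _) (reg_of_inG hn h2)
  rw [config_advL] at ht
  linarith

lemma expTime_ge (hn : 0 < n) {k : ℕ} (hk : 22 ≤ k) (hkn : k ^ 2 ≤ n) {p₀ : Fin n → ℝ}
    {x₀ : Fin n → Bool} (hp : Two p₀) (h0 : pot k p₀ x₀ = 0) (N : ℕ)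
    (hN : (N : ℝ) * (100 * k * (n : ℝ)⁻¹) ≤ (k : ℝ) ^ 2 / 8) :
    ENNReal.ofReal (((N : ℝ) + 1) / 2) ≤ expTime (advL hn p₀ x₀) p₀ x₀ := by
  have hk0 : (0 : ℝ) < k := by
    have : 0 < k := by omega
    exact_mod_cast this
  have hδ : (0 : ℝ) ≤ 100 * k * (n : ℝ)⁻¹ := by positivity
  have h1 := lintegral_le_of_drift (Vp hn k p₀ x₀) (Vp_nonneg hn k p₀ x₀) _ hδ
    (Vp_step hn hk hkn x₀ hp) N
  have hV0 : Vp hn k p₀ x₀ [] = 0 := by
    unfold Vp
    have : InG hn k p₀ x₀ [] := by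
      show pot k p₀ x₀ < (k : ℝ) ^ 2 / 4
      rw [h0]; positivity
    rw [if_pos this]; exact h0
  rw [hV0, zero_add] at h1
  -- Markov
  let bad : Set (ℕ → Mask n) := {ω | ¬ InG hn k p₀ x₀ (history ω N)}
  have hbadm : MeasurableSet bad := by
    have : bad = (fun ω : ℕ → Mask n => history ω N) ⁻¹' {l | ¬ InG hn k p₀ x₀ l} := rfl
    rw [this]
    exact measurable_history N trivial
  have h2 : ENNReal.ofReal ((k : ℝ) ^ 2 / 4) * runLaw n bad ≤
      ∫⁻ ω, ENNReal.ofReal (Vp hn k p₀ x₀ (history ω N)) ∂(runLaw n) := by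
    have hsub : bad ⊆ {ω | ENNReal.ofReal ((k : ℝ) ^ 2 / 4) ≤
        ENNReal.ofReal (Vp hn k p₀ x₀ (history ω N))} := by
      intro ω hω
      show ENNReal.ofReal ((k : ℝ) ^ 2 / 4) ≤ ENNReal.ofReal (Vp hn k p₀ x₀ (history ω N))
      unfold Vp
      rw [if_neg hω]
    refine (mul_le_mul_right (measure_mono hsub) _).trans ?_
    refine mul_meas_ge_le_lintegral ?_ _
    exact (measurable_list (fun l => ENNReal.ofReal (Vp hn k p₀ x₀ l))).comp (measurable_history N)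
  have h3 : ENNReal.ofReal ((k : ℝ) ^ 2 / 4) * runLaw n bad ≤ ENNReal.ofReal ((k : ℝ) ^ 2 / 8) :=
    h2.trans (h1.trans (ENNReal.ofReal_le_ofReal hN))
  have h4 : (runLaw n).real bad ≤ 1 / 2 := by
    have hfin : runLaw n bad ≠ ∞ := measure_ne_top _ _
    have h5 : ENNReal.ofReal ((k : ℝ) ^ 2 / 4 * (runLaw n).real bad) ≤
        ENNReal.ofReal ((k : ℝ) ^ 2 / 8) := by
      rw [ENNReal.ofReal_mul (by positivity), measureReal_def, ENNReal.ofReal_toReal hfin]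
      exact h3
    have h6 := (ENNReal.ofReal_le_ofReal_iff (by positivity)).1 h5
    have hk2 : (0 : ℝ) < (k : ℝ) ^ 2 := by positivity
    by_contra hc
    push Not at hc
    nlinarith
  have h5 : 1 / 2 ≤ (runLaw n).real badᶜ := by
    rw [probReal_compl_eq_one_sub hbadm]
    linarith
  have h6 : ENNReal.ofReal (1 / 2) ≤ runLaw n badᶜ := by
    have hfin : runLaw n badᶜ ≠ ∞ := measure_ne_top _ _
    rw [← ENNReal.ofReal_toReal hfin]
    exact ENNReal.ofReal_le_ofReal h5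
  unfold expTime
  calc ENNReal.ofReal (((N : ℝ) + 1) / 2)
      = ((N + 1 : ℕ) : ℝ≥0∞) * ENNReal.ofReal (1 / 2) := by
        rw [← ENNReal.ofReal_natCast, ← ENNReal.ofReal_mul (by positivity)]
        congr 1; push_cast; ring
    _ ≤ ((N + 1 : ℕ) : ℝ≥0∞) * runLaw n badᶜ := mul_le_mul_right h6 _
    _ = ∫⁻ ω, badᶜ.indicator (fun _ => ((N + 1 : ℕ) : ℝ≥0∞)) ω ∂(runLaw n) := by
        rw [lintegral_indicator_const hbadm.compl]
    _ ≤ ∫⁻ ω, hitTime (advL hn p₀ x₀) p₀ x₀ ω ∂(runLaw n) := by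
        refine lintegral_mono fun ω => ?_
        by_cases hω : ω ∈ badᶜ
        · rw [Set.indicator_of_mem hω]
          have : InG hn k p₀ x₀ (history ω N) := by
            by_contra h'; exact hω h'
          exact le_hitTime hn (by omega) hp this
        · rw [Set.indicator_of_notMem hω]; exact bot_le

/-- initial solution: the first `k` jobs are on machine 1 -/
def xInit (n k : ℕ) : Fin n → Bool := fun i => decide (k ≤ (i : ℕ))

lemma card_jobs_xInit {k : ℕ} (hkn : k ≤ n) : (jobs (xInit n k) false).card = k := by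
  have h : jobs (xInit n k) false = Finset.univ.filter (fun i : Fin n => (i : ℕ) < k) := by
    ext i; simp [jobs, xInit]
  rw [h, Fin.card_filter_val_lt]
  exact min_eq_right hkn

lemma lower_bound (hn : 484 ≤ n) :
    ENNReal.ofReal ((n : ℝ) * Nat.sqrt n / 1600) ≤ Tstar n := by
  have hn0 : 0 < n := by omega
  have hn' : (0 : ℝ) < n := by exact_mod_cast hn0
  set k := Nat.sqrt n with hk
  have hk22 : 22 ≤ k := Nat.le_sqrt.2 (by omega)
  have hkn : k ^ 2 ≤ n := by rw [pow_two]; exact Nat.sqrt_le n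
  have hkn1 : k ≤ n := Nat.sqrt_le_self n
  let x₀ := xInit n k
  let p₀ : Fin n → Set.Icc (lo n) 1 := fun i => ⟨tgt n (x₀ i), tgt_mem hn0 _⟩
  have hp : Two (fun i => ((p₀ i : Set.Icc (lo n) 1) : ℝ)) := fun i => tgt_two _
  have hk0 : (0 : ℝ) < k := by
    have : 0 < k := by omega
    exact_mod_cast this
  have h0 : pot k (fun i => ((p₀ i : Set.Icc (lo n) 1) : ℝ)) x₀ = 0 := by
    unfold pot
    have h1 : (jobs x₀ false).card = k := card_jobs_xInit hkn1
    have h2 : wr (fun i => ((p₀ i : Set.Icc (lo n) 1) : ℝ)) x₀ = ∅ := by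
      simp [wr, p₀]
    rw [h1, h2]; simp
  set N := ⌊(n : ℝ) * k / 800⌋₊ with hN
  have hN1 : (N : ℝ) ≤ (n : ℝ) * k / 800 := Nat.floor_le (by positivity)
  have hN2 : (n : ℝ) * k / 800 < N + 1 := Nat.lt_floor_add_one _
  have hN3 : (N : ℝ) * (100 * k * (n : ℝ)⁻¹) ≤ (k : ℝ) ^ 2 / 8 := by
    calc (N : ℝ) * (100 * k * (n : ℝ)⁻¹) ≤ ((n : ℝ) * k / 800) * (100 * k * (n : ℝ)⁻¹) :=
          mul_le_mul_of_nonneg_right hN1 (by positivity)
      _ = (k : ℝ) ^ 2 / 8 := by field_simp; ring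
  have h1 := expTime_ge hn0 hk22 hkn hp h0 N hN3
  have h2 : ENNReal.ofReal ((n : ℝ) * k / 1600) ≤ ENNReal.ofReal (((N : ℝ) + 1) / 2) := by
    apply ENNReal.ofReal_le_ofReal; linarith
  refine (h2.trans h1).trans ?_
  unfold Tstar
  refine le_iSup_of_le (lo n) ?_
  refine le_iSup_of_le 1 ?_
  refine le_iSup_of_le (lo_pos hn0) ?_
  refine le_iSup_of_le (lo_le_one hn0) ?_
  refine le_iSup_of_le p₀ ?_
  refine le_iSup_of_le x₀ ?_
  exact le_iSup_of_le (advL hn0 (fun i => ((p₀ i : Set.Icc (lo n) 1) : ℝ)) x₀) le_rfl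

end Pool.Agent.helper80.EA
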