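import Pool.Agent.helper80.EA.Moments

set_option autoImplicit false

open MeasureTheory ProbabilityTheory
open scoped ENNReal

namespace Pool.Agent.helper80.EA

variable {n : ℕ}

/-- small processing time -/
noncomputable def lo (n : ℕ) : ℝ := (2 * (n : ℝ))⁻¹

lemma lo_pos (hn : 0 < n) : 0 < lo n := by
  have : (0 : ℝ) < n := by exact_mod_cast hn
  unfold lo; positivity

lemma n_mul_lo (hn : 0 < n) : (n : ℝ) * lo n = 1 / 2 := by
  have : (0 : ℝ) < n := by exact_mod_cast hn
  unfold lo; field_simp

lemma lo_le_one (hn : 0 < n) : lo n ≤ 1 := by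
  have h : (1 : ℝ) ≤ n := by exact_mod_cast hn
  unfold lo
  apply inv_le_one_of_one_le₀
  linarith

/-- target processing time of a job on machine `c` -/
noncomputable def tgt (n : ℕ) (c : Bool) : ℝ := if c = false then 1 else lo n

open Classical in
/-- wrongly set jobs -/
noncomputable def wr (p : Fin n → ℝ) (x : Fin n → Bool) : Finset (Fin n) :=
  Finset.univ.filter (fun i => p i ≠ tgt n (x i))

/-- the potential -/
noncomputable def pot (k : ℝ) (p : Fin n → ℝ) (x : Fin n → Bool) : ℝ :=
  ((jobs x false).card - k) ^ 2 + 8 * ((wr p x).card : ℝ) ^ 2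

open Classical in
/-- big jobs on machine 1 -/
noncomputable def sA (p : Fin n → ℝ) (x : Fin n → Bool) : Finset (Fin n) :=
  Finset.univ.filter (fun i => x i = false ∧ p i = 1)
open Classical in
/-- wrong jobs on machine 1 -/
noncomputable def sB (p : Fin n → ℝ) (x : Fin n → Bool) : Finset (Fin n) :=
  Finset.univ.filter (fun i => x i = false ∧ p i ≠ 1)
open Classical in
/-- wrong jobs on machine 2 -/
noncomputable def sC (p : Fin n → ℝ) (x : Fin n → Bool) : Finset (Fin n) :=
  Finset.univ.filter (fun i => x i = true ∧ p i ≠ lo n)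
open Classical in
/-- small jobs on machine 2 -/
noncomputable def sD (p : Fin n → ℝ) (x : Fin n → Bool) : Finset (Fin n) :=
  Finset.univ.filter (fun i => x i = true ∧ p i = lo n)

lemma disj_AB (p : Fin n → ℝ) (x : Fin n → Bool) : Disjoint (sA p x) (sB p x) := by
  rw [Finset.disjoint_left]; intro i h1 h2
  simp [sA, sB] at h1 h2; exact h2.2 h1.2
lemma disj_AC (p : Fin n → ℝ) (x : Fin n → Bool) : Disjoint (sA p x) (sC p x) := by
  rw [Finset.disjoint_left]; intro i h1 h2
  simp [sA, sC] at h1 h2; simp [h1.1] at h2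
lemma disj_AD (p : Fin n → ℝ) (x : Fin n → Bool) : Disjoint (sA p x) (sD p x) := by
  rw [Finset.disjoint_left]; intro i h1 h2
  simp [sA, sD] at h1 h2; simp [h1.1] at h2
lemma disj_BC (p : Fin n → ℝ) (x : Fin n → Bool) : Disjoint (sB p x) (sC p x) := by
  rw [Finset.disjoint_left]; intro i h1 h2
  simp [sB, sC] at h1 h2; simp [h1.1] at h2
lemma disj_CD (p : Fin n → ℝ) (x : Fin n → Bool) : Disjoint (sC p x) (sD p x) := by
  rw [Finset.disjoint_left]; intro i h1 h2
  simp [sC, sD] at h1 h2; exact h1.2 h2.2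

lemma jobs_false_eq (p : Fin n → ℝ) (x : Fin n → Bool) : jobs x false = sA p x ∪ sB p x := by
  classical
  ext i; simp only [mem_jobs, Finset.mem_union, sA, sB, Finset.mem_filter, Finset.mem_univ, true_and]
  tauto

lemma jobs_true_eq (p : Fin n → ℝ) (x : Fin n → Bool) : jobs x true = sC p x ∪ sD p x := by
  classical
  ext i; simp only [mem_jobs, Finset.mem_union, sC, sD, Finset.mem_filter, Finset.mem_univ, true_and]
  tauto

lemma wr_eq (p : Fin n → ℝ) (x : Fin n → Bool) : wr p x = sB p x ∪ sC p x := by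
  classical
  ext i; simp only [wr, Finset.mem_union, sB, sC, Finset.mem_filter, Finset.mem_univ, true_and]
  cases h : x i <;> simp [tgt]

lemma card_jobs_false (p : Fin n → ℝ) (x : Fin n → Bool) :
    (jobs x false).card = (sA p x).card + (sB p x).card := by
  classical
  rw [jobs_false_eq p x, Finset.card_union_of_disjoint (disj_AB p x)]

lemma card_jobs_true (p : Fin n → ℝ) (x : Fin n → Bool) :
    (jobs x true).card = (sC p x).card + (sD p x).card := by
  classical
  rw [jobs_true_eq p x, Finset.card_union_of_disjoint (disj_CD p x)]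

lemma card_wr (p : Fin n → ℝ) (x : Fin n → Bool) :
    (wr p x).card = (sB p x).card + (sC p x).card := by
  classical
  rw [wr_eq p x, Finset.card_union_of_disjoint (disj_BC p x)]

lemma card_jobs_add (x : Fin n → Bool) : (jobs x false).card + (jobs x true).card = n := by
  classical
  have h : jobs x true = Finset.univ.filter (fun i => ¬ x i = false) := by
    ext i; simp [jobs]
  rw [h]
  unfold jobs
  rw [Finset.card_filter_add_card_filter_not]
  simp

lemma cnt_union {S T : Finset (Fin n)} (h : Disjoint S T) (m : Mask n) [DecidableEq (Fin n)] :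
    cnt (S ∪ T) m = cnt S m + cnt T m := by
  unfold cnt
  rw [Finset.filter_union, Finset.card_union_of_disjoint]
  exact Finset.disjoint_filter_filter h

lemma cnt_le_card (S : Finset (Fin n)) (m : Mask n) : cnt S m ≤ S.card :=
  Finset.card_le_card (Finset.filter_subset _ _)

lemma cnt_jobs_false (p : Fin n → ℝ) (x : Fin n → Bool) (m : Mask n) :
    cnt (jobs x false) m = cnt (sA p x) m + cnt (sB p x) m := by
  classical
  rw [jobs_false_eq p x]; convert cnt_union (disj_AB p x) m

lemma cnt_jobs_true (p : Fin n → ℝ) (x : Fin n → Bool) (m : Mask n) :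
    cnt (jobs x true) m = cnt (sC p x) m + cnt (sD p x) m := by
  classical
  rw [jobs_true_eq p x]; convert cnt_union (disj_CD p x) m

lemma cnt_univ_eq (x : Fin n → Bool) (m : Mask n) :
    cnt Finset.univ m = cnt (jobs x false) m + cnt (jobs x true) m := by
  classical
  have h : (Finset.univ : Finset (Fin n)) = jobs x false ∪ jobs x true := by
    ext i; simp only [Finset.mem_univ, Finset.mem_union, mem_jobs, true_iff]
    cases x i <;> simp
  have hd : Disjoint (jobs x false) (jobs x true) := by
    rw [Finset.disjoint_left]; intro i h1 h2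
    rw [mem_jobs] at h1 h2; rw [h1] at h2; exact absurd h2 (by simp)
  rw [h]; convert cnt_union hd m

lemma lo_ne_one (hn : 0 < n) : lo n ≠ 1 := by
  have h := n_mul_lo hn
  intro h1
  rw [h1, mul_one] at h
  have : (1 : ℝ) ≤ n := by exact_mod_cast hn
  linarith

lemma sum_decomp (hn : 0 < n) (p : Fin n → ℝ) (x : Fin n → Bool)
    (hp : ∀ i, p i = 1 ∨ p i = lo n) (g : Fin n → ℝ) :
    ∑ i, sg false (x i) * g i * p i =
      ∑ i ∈ sA p x, g i + lo n * ∑ i ∈ sB p x, g i - ∑ i ∈ sC p x, g i
        - lo n * ∑ i ∈ sD p x, g i := by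
  classical
  simp only [Finset.mul_sum]
  have hlo := lo_ne_one hn
  have hlo' : ¬ (1 = lo n) := fun h => hlo h.symm
  have h : ∀ i, sg false (x i) * g i * p i =
      (if i ∈ sA p x then g i else 0) + (if i ∈ sB p x then lo n * g i else 0)
      - (if i ∈ sC p x then g i else 0) - (if i ∈ sD p x then lo n * g i else 0) := by
    intro i
    unfold sg sA sB sC sD
    simp only [Finset.mem_filter, Finset.mem_univ, true_and]
    rcases hp i with h1 | h1
    · cases hx : x i <;> simp [h1, hlo']
    · cases hx : x i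
      · simp [h1, hlo]; ring
      · simp [h1, hlo]; ring
  simp_rw [h]
  rw [Finset.sum_sub_distrib, Finset.sum_sub_distrib, Finset.sum_add_distrib]
  simp only [Finset.sum_ite_mem, Finset.univ_inter]

lemma flow_eq (hn : 0 < n) (p : Fin n → ℝ) (x : Fin n → Bool)
    (hp : ∀ i, p i = 1 ∨ p i = lo n) (m : Mask n) :
    flow p x m false = cnt (sA p x) m + lo n * cnt (sB p x) m - cnt (sC p x) m
      - lo n * cnt (sD p x) m := by
  unfold flow
  rw [sum_decomp hn p x hp (fun i => fl i m)]
  simp only [cnt_cast]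

lemma dif_eq' (hn : 0 < n) (p : Fin n → ℝ) (x : Fin n → Bool)
    (hp : ∀ i, p i = 1 ∨ p i = lo n) :
    dif p x false = (sA p x).card + lo n * (sB p x).card - (sC p x).card
      - lo n * (sD p x).card := by
  unfold dif
  have := sum_decomp hn p x hp (fun _ => 1)
  simp only [mul_one, Finset.sum_const, nsmul_eq_mul] at this
  exact this

lemma lo_mul_card_le (hn : 0 < n) (S : Finset (Fin n)) : lo n * (S.card : ℝ) ≤ 1 / 2 := by
  have h1 : (S.card : ℝ) ≤ n := by exact_mod_cast (card_finset_fin_le S)
  have h2 := n_mul_lo hn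
  have h3 := lo_pos hn
  nlinarith

lemma one_lt_dif (hn : 0 < n) (p : Fin n → ℝ) (x : Fin n → Bool)
    (hp : ∀ i, p i = 1 ∨ p i = lo n) (hac : (sC p x).card + 2 ≤ (sA p x).card) :
    1 < dif p x false := by
  rw [dif_eq' hn p x hp]
  have h1 := lo_mul_card_le hn (sD p x)
  have h2 : 0 ≤ lo n * ((sB p x).card : ℝ) := by have := lo_pos hn; positivity
  have h3 : ((sC p x).card : ℝ) + 2 ≤ (sA p x).card := by exact_mod_cast hac
  linarith

lemma acc_of_one (hn : 0 < n) (p : Fin n → ℝ) (x : Fin n → Bool)
    (hp : ∀ i, p i = 1 ∨ p i = lo n) (hac : (sC p x).card + 2 ≤ (sA p x).card) (m : Mask n)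
    (h1 : cnt (sA p x) m = 1) (h0 : cnt (sC p x) m = 0) : acc p x m := by
  have hD := one_lt_dif hn p x hp hac
  rw [acc_iff (b := false) (by linarith), flow_eq hn p x hp, dif_eq' hn p x hp, h1, h0]
  have hlo := lo_pos hn
  have e1 := lo_mul_card_le hn (sD p x)
  have e2 : lo n * (cnt (sD p x) m : ℝ) ≤ lo n * (sD p x).card := by
    apply mul_le_mul_of_nonneg_left _ hlo.le
    exact_mod_cast cnt_le_card _ _
  have e3 : lo n * (cnt (sB p x) m : ℝ) ≤ lo n * (sB p x).card := by
    apply mul_le_mul_of_nonneg_left _ hlo.le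
    exact_mod_cast cnt_le_card _ _
  have e4 : 0 ≤ lo n * (cnt (sB p x) m : ℝ) := by positivity
  have e5 : 0 ≤ lo n * (cnt (sD p x) m : ℝ) := by positivity
  have h3 : ((sC p x).card : ℝ) + 2 ≤ (sA p x).card := by exact_mod_cast hac
  constructor
  · push_cast; linarith
  · push_cast; linarith

lemma zero_of_acc (hn : 0 < n) (p : Fin n → ℝ) (x : Fin n → Bool)
    (hp : ∀ i, p i = 1 ∨ p i = lo n) (hac : (sC p x).card + 2 ≤ (sA p x).card) (m : Mask n)
    (h : acc p x m) (h0 : cnt (sA p x) m = 0) (h1 : cnt (sB p x) m = 0) :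
    cnt (sC p x) m = 0 ∧ cnt (sD p x) m = 0 := by
  have hD := one_lt_dif hn p x hp hac
  rw [acc_iff (b := false) (by linarith), flow_eq hn p x hp, h0, h1] at h
  have hlo := lo_pos hn
  have h2 := h.1
  have e4 : 0 ≤ lo n * (cnt (sD p x) m : ℝ) := by positivity
  have e5 : (0 : ℝ) ≤ (cnt (sC p x) m : ℝ) := by positivity
  push_cast at h2
  have e6 : lo n * (cnt (sD p x) m : ℝ) = 0 := by linarith
  have e7 : (cnt (sC p x) m : ℝ) = 0 := by linarith
  constructor
  · exact_mod_cast e7
  · rcases mul_eq_zero.1 e6 with h | h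
    · exact absurd h hlo.ne'
    · exact_mod_cast h

open Classical in
/-- indicator of acceptance -/
noncomputable def accI (p : Fin n → ℝ) (x : Fin n → Bool) (m : Mask n) : ℝ :=
  if acc p x m then 1 else 0

/-- change of the number of jobs on machine 1 if the offspring is accepted -/
noncomputable def dW (p : Fin n → ℝ) (x : Fin n → Bool) (m : Mask n) : ℝ :=
  cnt (sC p x) m + cnt (sD p x) m - cnt (sA p x) m - cnt (sB p x) m

lemma accI_dW_le (hn : 0 < n) (p : Fin n → ℝ) (x : Fin n → Bool)
    (hp : ∀ i, p i = 1 ∨ p i = lo n) (hac : (sC p x).card + 2 ≤ (sA p x).card) (m : Mask n) :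
    accI p x m * dW p x m ≤
      (cnt (jobs x true) m : ℝ) * cnt (jobs x false) m - cnt (sA p x) m
        + (cnt (sA p x) m) * (cnt (sA p x) m - 1) + cnt (sA p x) m * cnt (sC p x) m := by
  have hf2 := acc_of_one hn p x hp hac m
  have hf3 := zero_of_acc hn p x hp hac m
  rw [cnt_jobs_false p x, cnt_jobs_true p x]
  unfold accI dW
  generalize cnt (sA p x) m = a at *
  generalize cnt (sB p x) m = b at *
  generalize cnt (sC p x) m = c at *
  generalize cnt (sD p x) m = d at *
  push_cast
  have hb : (0 : ℝ) ≤ b := by positivity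
  have hc : (0 : ℝ) ≤ c := by positivity
  have hd : (0 : ℝ) ≤ d := by positivity
  have ha : (0 : ℝ) ≤ a := by positivity
  split_ifs with h
  · rw [one_mul]
    rcases Nat.eq_zero_or_pos (a + b) with h0 | h0
    · have ha0 : a = 0 := by omega
      have hb0 : b = 0 := by omega
      obtain ⟨hc0, hd0⟩ := hf3 h ha0 hb0
      subst ha0 hb0 hc0 hd0
      simp
    · have h1 : (1 : ℝ) ≤ a + b := by exact_mod_cast h0
      have h2 : (c : ℝ) + d ≤ (c + d) * (a + b) := by nlinarith
      have h3 : (0 : ℝ) ≤ a * (a - 1) := by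
        rcases Nat.eq_zero_or_pos a with h4 | h4
        · subst h4; simp
        · have : (1 : ℝ) ≤ a := by exact_mod_cast h4
          nlinarith
      nlinarith [mul_nonneg ha hc]
  · rw [zero_mul]
    rcases Nat.lt_or_ge a 2 with h2 | h2
    · interval_cases a
      · simp; positivity
      · have hc1 : c ≠ 0 := fun h' => h (hf2 rfl h')
        have : (1 : ℝ) ≤ c := by exact_mod_cast Nat.one_le_iff_ne_zero.2 hc1
        push_cast
        nlinarith [mul_nonneg hc hb, mul_nonneg hd hb]
    · have : (2 : ℝ) ≤ a := by exact_mod_cast h2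
      have h5 : 0 ≤ ((c : ℝ) + d) * (a + b) := by positivity
      nlinarith [mul_nonneg ha hc]

lemma le_accI_dW (hn : 0 < n) (p : Fin n → ℝ) (x : Fin n → Bool)
    (hp : ∀ i, p i = 1 ∨ p i = lo n) (hac : (sC p x).card + 2 ≤ (sA p x).card) (m : Mask n) :
    (cnt (sD p x) m : ℝ) * cnt (sA p x) m
      - cnt (sD p x) m * (cnt (sA p x) m * (cnt (sA p x) m - 1))
      - cnt (sD p x) m * (cnt (sA p x) m * cnt (sC p x) m)
      - cnt (sA p x) m - cnt (sB p x) m ≤ accI p x m * dW p x m := by
  have hf2 := acc_of_one hn p x hp hac m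
  unfold accI dW
  generalize cnt (sA p x) m = a at *
  generalize cnt (sB p x) m = b at *
  generalize cnt (sC p x) m = c at *
  generalize cnt (sD p x) m = d at *
  have hb : (0 : ℝ) ≤ b := by positivity
  have hc : (0 : ℝ) ≤ c := by positivity
  have hd : (0 : ℝ) ≤ d := by positivity
  have ha : (0 : ℝ) ≤ a := by positivity
  have key : (a : ℝ) - a * (a - 1) - a * c ≤ 1 := by
    rcases Nat.lt_or_ge a 2 with h2 | h2
    · interval_cases a
      · simp
      · push_cast; linarith
    · have : (2 : ℝ) ≤ a := by exact_mod_cast h2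
      nlinarith [mul_nonneg ha hc]
  split_ifs with h
  · rw [one_mul]
    nlinarith [mul_le_mul_of_nonneg_left key hd]
  · rw [zero_mul]
    have key2 : (a : ℝ) - a * (a - 1) - a * c ≤ 0 := by
      rcases Nat.lt_or_ge a 2 with h2 | h2
      · interval_cases a
        · simp
        · have hc1 : c ≠ 0 := fun h' => h (hf2 rfl h')
          have : (1 : ℝ) ≤ c := by exact_mod_cast Nat.one_le_iff_ne_zero.2 hc1
          push_cast; linarith
      · have : (2 : ℝ) ≤ a := by exact_mod_cast h2
        nlinarith [mul_nonneg ha hc]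
    nlinarith [mul_le_mul_of_nonneg_left key2 hd]

end Pool.Agent.helper80.EA
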