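import Pool.Agent.helper80.EA.Moves

set_option autoImplicit false

open MeasureTheory ProbabilityTheory
open scoped ENNReal

namespace Pool.Agent.helper80.EA

variable {n : ℕ}

lemma fl_sq (i : Fin n) (m : Mask n) : fl i m * fl i m = fl i m := by
  unfold fl; split_ifs <;> norm_num

lemma E_cnt (S : Finset (Fin n)) : E (fun m => (cnt S m : ℝ)) = S.card * (n : ℝ)⁻¹ := by
  simp_rw [cnt_cast]
  rw [E_sum]
  simp_rw [E_fl]
  rw [Finset.sum_const, nsmul_eq_mul]

lemma E_cnt_mul {S T : Finset (Fin n)} (h : Disjoint S T) :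
    E (fun m => (cnt S m : ℝ) * cnt T m) = S.card * T.card * (n : ℝ)⁻¹ ^ 2 := by
  simp_rw [cnt_cast, Finset.sum_mul_sum]
  rw [E_sum]
  have h1 : ∀ i ∈ S, E (fun m => ∑ j ∈ T, fl i m * fl j m) = T.card * (n : ℝ)⁻¹ ^ 2 := by
    intro i hi
    have h2 : ∀ j ∈ T, E (fun m => fl i m * fl j m) = (n : ℝ)⁻¹ ^ 2 := fun j hj =>
      E_fl2 (fun hij => Finset.disjoint_left.1 h hi (hij ▸ hj))
    rw [E_sum, Finset.sum_congr rfl h2, Finset.sum_const, nsmul_eq_mul]
  rw [Finset.sum_congr rfl h1, Finset.sum_const, nsmul_eq_mul, mul_assoc]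

lemma cnt_mul_pred (S : Finset (Fin n)) (m : Mask n) :
    (cnt S m : ℝ) * (cnt S m - 1) = ∑ i ∈ S, ∑ j ∈ S.erase i, fl i m * fl j m := by
  rw [mul_sub, mul_one]
  nth_rewrite 3 [cnt_cast]
  rw [cnt_cast, Finset.sum_mul_sum, ← Finset.sum_sub_distrib]
  refine Finset.sum_congr rfl fun i hi => ?_
  rw [← Finset.add_sum_erase S (fun j => fl i m * fl j m) hi, fl_sq]
  ring

lemma E_cnt_mul_pred (S : Finset (Fin n)) :
    E (fun m => (cnt S m : ℝ) * (cnt S m - 1)) = S.card * (S.card - 1) * (n : ℝ)⁻¹ ^ 2 := by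
  simp_rw [cnt_mul_pred]
  rw [E_sum]
  have h1 : ∀ i ∈ S, E (fun m => ∑ j ∈ S.erase i, fl i m * fl j m) =
      ((S.card : ℝ) - 1) * (n : ℝ)⁻¹ ^ 2 := by
    intro i hi
    rw [E_sum, Finset.sum_congr rfl (fun j hj => E_fl2 (Ne.symm (Finset.ne_of_mem_erase hj))),
      Finset.sum_const, nsmul_eq_mul, Finset.card_erase_of_mem hi,
      Nat.cast_pred (Finset.card_pos.2 ⟨i, hi⟩)]
  rw [Finset.sum_congr rfl h1, Finset.sum_const, nsmul_eq_mul, mul_assoc]

lemma E_cnt_mul_mul {R S T : Finset (Fin n)} (hRS : Disjoint R S) (hRT : Disjoint R T)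
    (hST : Disjoint S T) :
    E (fun m => (cnt R m : ℝ) * (cnt S m * cnt T m)) =
      R.card * S.card * T.card * (n : ℝ)⁻¹ ^ 3 := by
  simp_rw [cnt_cast, Finset.sum_mul_sum]
  simp_rw [Finset.mul_sum]
  rw [E_sum]
  have h1 : ∀ i ∈ R, E (fun m => ∑ j ∈ S, ∑ k ∈ T, fl i m * (fl j m * fl k m)) =
      S.card * T.card * (n : ℝ)⁻¹ ^ 3 := by
    intro i hi
    rw [E_sum]
    have h2 : ∀ j ∈ S, E (fun m => ∑ k ∈ T, fl i m * (fl j m * fl k m)) =
        T.card * (n : ℝ)⁻¹ ^ 3 := by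
      intro j hj
      rw [E_sum]
      have h3 : ∀ k ∈ T, E (fun m => fl i m * (fl j m * fl k m)) = (n : ℝ)⁻¹ ^ 3 := by
        intro k hk
        have := E_fl3 (n := n) (i := i) (j := j) (k := k)
          (fun h => Finset.disjoint_left.1 hRS hi (h ▸ hj))
          (fun h => Finset.disjoint_left.1 hRT hi (h ▸ hk))
          (fun h => Finset.disjoint_left.1 hST hj (h ▸ hk))
        simp_rw [mul_assoc] at this
        exact this
      rw [Finset.sum_congr rfl h3, Finset.sum_const, nsmul_eq_mul]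
    rw [Finset.sum_congr rfl h2, Finset.sum_const, nsmul_eq_mul, mul_assoc]
  simp_rw [← Finset.mul_sum] at h1 ⊢
  rw [Finset.sum_congr rfl h1, Finset.sum_const, nsmul_eq_mul]
  ring

lemma E_cnt_mul_mul_pred {R S : Finset (Fin n)} (hRS : Disjoint R S) :
    E (fun m => (cnt R m : ℝ) * (cnt S m * (cnt S m - 1))) =
      R.card * (S.card * (S.card - 1)) * (n : ℝ)⁻¹ ^ 3 := by
  simp_rw [cnt_mul_pred]
  simp_rw [cnt_cast, Finset.sum_mul]
  rw [E_sum]
  have h1 : ∀ i ∈ R, E (fun m => fl i m * ∑ j ∈ S, ∑ k ∈ S.erase j, fl j m * fl k m) =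
      (S.card * ((S.card : ℝ) - 1)) * (n : ℝ)⁻¹ ^ 3 := by
    intro i hi
    simp_rw [Finset.mul_sum]
    rw [E_sum]
    have h2 : ∀ j ∈ S, E (fun m => ∑ k ∈ S.erase j, fl i m * (fl j m * fl k m)) =
        ((S.card : ℝ) - 1) * (n : ℝ)⁻¹ ^ 3 := by
      intro j hj
      rw [E_sum]
      have h3 : ∀ k ∈ S.erase j, E (fun m => fl i m * (fl j m * fl k m)) = (n : ℝ)⁻¹ ^ 3 := by
        intro k hk
        have := E_fl3 (n := n) (i := i) (j := j) (k := k)
          (fun h => Finset.disjoint_left.1 hRS hi (h ▸ hj))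
          (fun h => Finset.disjoint_left.1 hRS hi (h ▸ Finset.mem_of_mem_erase hk))
          (Ne.symm (Finset.ne_of_mem_erase hk))
        simp_rw [mul_assoc] at this
        exact this
      rw [Finset.sum_congr rfl h3, Finset.sum_const, nsmul_eq_mul, Finset.card_erase_of_mem hj,
        Nat.cast_pred (Finset.card_pos.2 ⟨j, hj⟩)]
    rw [Finset.sum_congr rfl h2, Finset.sum_const, nsmul_eq_mul, mul_assoc]
  rw [Finset.sum_congr rfl h1, Finset.sum_const, nsmul_eq_mul]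
  ring

lemma two_pow_cnt (m : Mask n) : (2 : ℝ) ^ (cnt Finset.univ m) = ∏ j, (if m j then (2 : ℝ) else 1) := by
  unfold cnt
  rw [Finset.prod_ite, Finset.prod_const_one, mul_one, Finset.prod_const]

lemma one_add_inv_pow_le (hn : 0 < n) : (1 + (n : ℝ)⁻¹) ^ (n - 1) ≤ 3 := by
  have hn' : (0 : ℝ) < n := by exact_mod_cast hn
  have h1 : (1 + (n : ℝ)⁻¹) ^ (n - 1) ≤ (1 + (n : ℝ)⁻¹) ^ n :=
    pow_le_pow_right₀ (by have : 0 ≤ (n : ℝ)⁻¹ := by positivity
                          linarith) (Nat.sub_le n 1)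
  have h2 : (1 + (n : ℝ)⁻¹) ^ n ≤ (Real.exp ((n : ℝ)⁻¹)) ^ n := by
    apply pow_le_pow_left₀ (by positivity)
    rw [add_comm]; exact Real.add_one_le_exp _
  rw [← Real.exp_nat_mul, mul_inv_cancel₀ hn'.ne'] at h2
  have h3 := Real.exp_one_lt_d9
  linarith

lemma E_fl_two_pow (i : Fin n) :
    E (fun m => fl i m * (2 : ℝ) ^ (cnt Finset.univ m)) = 2 * (n : ℝ)⁻¹ * (1 + (n : ℝ)⁻¹) ^ (n - 1) := by
  classical
  have h := E_prod (n := n) (fun j b => if j = i then (if b then 2 else 0) else (if b then 2 else 1))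
  have h1 : (fun m : Mask n => fl i m * (2 : ℝ) ^ (cnt Finset.univ m)) =
      fun m => ∏ j, (if j = i then (if m j then (2:ℝ) else 0) else (if m j then 2 else 1)) := by
    funext m
    rw [two_pow_cnt, ← Finset.mul_prod_erase Finset.univ _ (Finset.mem_univ i),
      ← Finset.mul_prod_erase Finset.univ (fun j => if j = i then _ else _) (Finset.mem_univ i)]
    rw [if_pos rfl, ← mul_assoc]
    congr 1
    · unfold fl; split_ifs <;> norm_num
    · exact Finset.prod_congr rfl fun j hj => by rw [if_neg (Finset.ne_of_mem_erase hj)]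
  rw [h1, h, ← Finset.mul_prod_erase Finset.univ _ (Finset.mem_univ i)]
  rw [Finset.prod_congr rfl (fun j hj => by
    rw [if_neg (Finset.ne_of_mem_erase hj), if_neg (Finset.ne_of_mem_erase hj)] :
      ∀ j ∈ Finset.univ.erase i, (n : ℝ)⁻¹ * (if j = i then (if true = true then (2:ℝ) else 0)
        else (if true = true then 2 else 1)) + (1 - (n : ℝ)⁻¹) * (if j = i then
          (if false = true then 2 else 0) else (if false = true then 2 else 1)) =
        (n : ℝ)⁻¹ * (if true = true then 2 else 1) +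
          (1 - (n : ℝ)⁻¹) * (if false = true then 2 else 1))]
  rw [Finset.prod_const, Finset.card_erase_of_mem (Finset.mem_univ i), Finset.card_univ,
    Fintype.card_fin]
  simp only [if_true, Bool.false_eq_true, if_false]
  congr 1
  · ring
  · congr 1; ring

lemma sq_le_two_pow (J : ℕ) : ((J : ℝ)) ^ 2 ≤ 9 / 8 * 2 ^ J := by
  have h : ∀ J : ℕ, 8 * J ^ 2 ≤ 9 * 2 ^ J := by
    intro J
    rcases lt_or_ge J 4 with hJ | hJ
    · interval_cases J <;> norm_num
    · induction J, hJ using Nat.le_induction with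
      | base => norm_num
      | succ J hJ ih =>
        have e1 : 8 * (J + 1) ^ 2 ≤ 2 * (8 * J ^ 2) := by nlinarith
        have e2 : 9 * 2 ^ (J + 1) = 2 * (9 * 2 ^ J) := by ring
        rw [e2]; omega
  have := h J
  have h2 : (8 : ℝ) * (J : ℝ) ^ 2 ≤ 9 * 2 ^ J := by exact_mod_cast this
  linarith

/-- if a nonnegative function vanishes unless some bit of `S` flips and is otherwise at most
the square of the number of flips, its expectation is at most `7 |S| / n`. -/
lemma E_sq_le (hn : 0 < n) (S : Finset (Fin n)) (f : Mask n → ℝ)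
    (h0 : ∀ m, cnt S m = 0 → f m ≤ 0)
    (h1 : ∀ m, f m ≤ (cnt Finset.univ m : ℝ) ^ 2) :
    E f ≤ 7 * S.card * (n : ℝ)⁻¹ := by
  have hn' : (0 : ℝ) < n := by exact_mod_cast hn
  have h2 : ∀ m, f m ≤ ∑ i ∈ S, 9 / 8 * (fl i m * (2 : ℝ) ^ (cnt Finset.univ m)) := by
    intro m
    have h3 : ∑ i ∈ S, 9 / 8 * (fl i m * (2 : ℝ) ^ (cnt Finset.univ m)) =
        (cnt S m : ℝ) * (9 / 8 * (2 : ℝ) ^ (cnt Finset.univ m)) := by
      rw [cnt_cast, Finset.sum_mul]
      exact Finset.sum_congr rfl fun i _ => by ring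
    rw [h3]
    rcases Nat.eq_zero_or_pos (cnt S m) with h | h
    · rw [h]; simpa using h0 m h
    · have h4 : (1 : ℝ) ≤ cnt S m := by exact_mod_cast h
      have h5 := sq_le_two_pow (cnt Finset.univ m)
      have h6 : (0 : ℝ) ≤ 9 / 8 * (2 : ℝ) ^ (cnt Finset.univ m) := by positivity
      nlinarith [h1 m]
  refine (E_mono h2).trans ?_
  rw [E_sum]
  simp_rw [E_const_mul, E_fl_two_pow]
  rw [Finset.sum_const, nsmul_eq_mul]
  have h7 := one_add_inv_pow_le hn
  have h8 : (0 : ℝ) ≤ S.card * (n : ℝ)⁻¹ := by positivity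
  nlinarith

end Pool.Agent.helper80.EA
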