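import Pool.Agent.helper80.EA.Step

set_option autoImplicit false

open MeasureTheory ProbabilityTheory
open scoped ENNReal

namespace Pool.Agent.helper80.EA

variable {n : ℕ}

/-- sign of machine `c` relative to machine `b` -/
noncomputable def sg (b c : Bool) : ℝ := if c = b then 1 else -1

/-- signed load difference: load of machine `b` minus load of the other machine -/
noncomputable def dif (p : Fin n → ℝ) (x : Fin n → Bool) (b : Bool) : ℝ :=
  ∑ i, sg b (x i) * p i

/-- processing time leaving machine `b` minus processing time entering it -/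
noncomputable def flow (p : Fin n → ℝ) (x : Fin n → Bool) (m : Mask n) (b : Bool) : ℝ :=
  ∑ i, sg b (x i) * fl i m * p i

lemma dif_eq (p : Fin n → ℝ) (x : Fin n → Bool) (b : Bool) :
    dif p x b = load p x b - load p x (!b) := by
  unfold dif load
  rw [← Finset.sum_sub_distrib]
  refine Finset.sum_congr rfl fun i _ => ?_
  unfold sg
  cases b <;> cases x i <;> simp

lemma disc_eq (p : Fin n → ℝ) (x : Fin n → Bool) (b : Bool) :
    disc p x = |dif p x b| := by
  rw [dif_eq]
  unfold disc
  cases b
  · rfl
  · rw [abs_sub_comm]; rfl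

lemma load_add (p : Fin n → ℝ) (x : Fin n → Bool) :
    load p x false + load p x true = ∑ i, p i := by
  unfold load
  rw [← Finset.sum_add_distrib]
  refine Finset.sum_congr rfl fun i _ => ?_
  cases x i <;> simp

lemma makespan_eq (p : Fin n → ℝ) (x : Fin n → Bool) :
    makespan p x = ((∑ i, p i) + disc p x) / 2 := by
  unfold makespan disc
  rw [← load_add p x]
  rcases le_total (load p x false) (load p x true) with h | h
  · rw [max_eq_right h, abs_of_nonpos (by linarith)]; ring
  · rw [max_eq_left h, abs_of_nonneg (by linarith)]; ring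

lemma makespan_le_iff (p : Fin n → ℝ) (x y : Fin n → Bool) :
    makespan p y ≤ makespan p x ↔ disc p y ≤ disc p x := by
  rw [makespan_eq, makespan_eq]
  constructor <;> intro h <;> linarith

lemma dif_mutate (p : Fin n → ℝ) (x : Fin n → Bool) (m : Mask n) (b : Bool) :
    dif p (mutate x m) b = dif p x b - 2 * flow p x m b := by
  unfold dif flow
  rw [Finset.mul_sum, ← Finset.sum_sub_distrib]
  refine Finset.sum_congr rfl fun i _ => ?_
  unfold mutate sg fl
  cases x i <;> cases m i <;> cases b <;> simp <;> ring

/-- acceptance of the offspring -/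
def acc (p : Fin n → ℝ) (x : Fin n → Bool) (m : Mask n) : Prop :=
  disc p (mutate x m) ≤ disc p x

lemma select_of_acc {p : Fin n → ℝ} {x : Fin n → Bool} {m : Mask n} (h : acc p x m) :
    select p x (mutate x m) = mutate x m := by
  unfold select
  rw [if_pos ((makespan_le_iff p x _).2 h)]

lemma select_of_not_acc {p : Fin n → ℝ} {x : Fin n → Bool} {m : Mask n} (h : ¬ acc p x m) :
    select p x (mutate x m) = x := by
  unfold select
  rw [if_neg (fun h' => h ((makespan_le_iff p x _).1 h'))]

lemma acc_iff {p : Fin n → ℝ} {x : Fin n → Bool} {m : Mask n} {b : Bool} (hD : 0 < dif p x b) :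
    acc p x m ↔ 0 ≤ flow p x m b ∧ flow p x m b ≤ dif p x b := by
  unfold acc
  rw [disc_eq p _ b, disc_eq p _ b, dif_mutate, abs_of_pos hD, abs_le]
  constructor
  · rintro ⟨h1, h2⟩; constructor <;> linarith
  · rintro ⟨h1, h2⟩; constructor <;> linarith

lemma disc_select_le (p : Fin n → ℝ) (x : Fin n → Bool) (m : Mask n) :
    disc p (select p x (mutate x m)) ≤ disc p x := by
  by_cases h : acc p x m
  · rw [select_of_acc h]; exact h
  · rw [select_of_not_acc h]

/-- jobs on machine `b` -/
def jobs (x : Fin n → Bool) (b : Bool) : Finset (Fin n) := Finset.univ.filter (fun i => x i = b)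

lemma mem_jobs {x : Fin n → Bool} {b : Bool} {i : Fin n} : i ∈ jobs x b ↔ x i = b := by
  simp [jobs]

/-- number of flipped bits in `S` -/
noncomputable def cnt (S : Finset (Fin n)) (m : Mask n) : ℕ := (S.filter (fun i => m i = true)).card

lemma cnt_cast (S : Finset (Fin n)) (m : Mask n) : (cnt S m : ℝ) = ∑ i ∈ S, fl i m := by
  unfold cnt fl
  rw [Finset.sum_ite, Finset.sum_const_zero, add_zero, Finset.sum_const, nsmul_eq_mul, mul_one]

lemma jobs_mutate_card (x : Fin n → Bool) (m : Mask n) (b : Bool) :
    (jobs (mutate x m) b).card + cnt (jobs x b) m = (jobs x b).card + cnt (jobs x (!b)) m := by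
  classical
  have h1 : jobs (mutate x m) b =
      ((jobs x b).filter (fun i => ¬ m i = true)) ∪ ((jobs x (!b)).filter (fun i => m i = true)) := by
    ext i
    simp only [mem_jobs, Finset.mem_union, Finset.mem_filter]
    unfold mutate
    cases x i <;> cases m i <;> cases b <;> simp
  have h2 : Disjoint ((jobs x b).filter (fun i => ¬ m i = true))
      ((jobs x (!b)).filter (fun i => m i = true)) := by
    rw [Finset.disjoint_left]
    intro i hi hj
    exact (Finset.mem_filter.1 hi).2 (Finset.mem_filter.1 hj).2
  rw [h1, Finset.card_union_of_disjoint h2]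
  unfold cnt
  have h3 := Finset.card_filter_add_card_filter_not (s := jobs x b) (fun i => m i = true)
  omega

end Pool.Agent.helper80.EA
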