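import Mathlib

set_option autoImplicit false

namespace Pool.Agent.helper80.EA

/-- `⌊√n⌋ + 1` -/
def rt (n : ℕ) : ℕ := Nat.sqrt n + 1

/-- increments of the potential -/
noncomputable def hh (n j : ℕ) : ℝ :=
  if j ≤ rt n then 8 * n * (1 + ∑ i ∈ Finset.Ioc j (rt n), (i : ℝ)⁻¹)
  else 8 * n * ((rt n : ℝ) ^ 2 / (j * (j - 1)))

/-- the potential -/
noncomputable def gg (n j : ℕ) : ℝ := ∑ i ∈ Finset.range j, hh n (i + 1)

lemma rt_pos (n : ℕ) : 0 < rt n := Nat.succ_pos _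

lemma lt_rt_sq (n : ℕ) : n < rt n ^ 2 := by
  unfold rt; rw [pow_two]; exact Nat.lt_succ_sqrt n

lemma hh_nonneg (n j : ℕ) : 0 ≤ hh n j := by
  unfold hh
  split_ifs with h
  · positivity
  · have h1 : (1 : ℝ) ≤ j := by
      have := rt_pos n
      exact_mod_cast (by omega : 1 ≤ j)
    have : (0 : ℝ) ≤ (j : ℝ) * (j - 1) := by nlinarith
    positivity

lemma sum_Ioc_split {j m : ℕ} (h : j + 1 ≤ m) :
    ∑ i ∈ Finset.Ioc j m, (i : ℝ)⁻¹ = ((j + 1 : ℕ) : ℝ)⁻¹ + ∑ i ∈ Finset.Ioc (j + 1) m, (i : ℝ)⁻¹ := by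
  have h1 : Finset.Ioc j m = insert (j + 1) (Finset.Ioc (j + 1) m) := by
    ext i; simp only [Finset.mem_Ioc, Finset.mem_insert]; omega
  rw [h1, Finset.sum_insert (by simp)]

lemma hh_succ_lt {n j : ℕ} (h : j + 1 ≤ rt n) :
    hh n j = hh n (j + 1) + 8 * n * ((j + 1 : ℕ) : ℝ)⁻¹ := by
  unfold hh
  rw [if_pos (by omega), if_pos h, sum_Ioc_split h]
  ring

lemma hh_big {n j : ℕ} (h : rt n ≤ j) :
    hh n (j + 1) = 8 * n * ((rt n : ℝ) ^ 2 / ((j + 1 : ℕ) * j)) := by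
  unfold hh
  rw [if_neg (by omega)]
  push_cast
  congr 3
  ring

lemma hh_anti (n : ℕ) {j : ℕ} (hj : 1 ≤ j) : hh n (j + 1) ≤ hh n j := by
  rcases Nat.lt_or_ge j (rt n) with h | h
  · rw [hh_succ_lt h]
    have : (0 : ℝ) ≤ 8 * n * ((j + 1 : ℕ) : ℝ)⁻¹ := by positivity
    linarith
  · rw [hh_big h]
    have hj' : (1 : ℝ) ≤ j := by exact_mod_cast hj
    have hrt : (1 : ℝ) ≤ rt n := by exact_mod_cast rt_pos n
    have hrj : (rt n : ℝ) ≤ j := by exact_mod_cast h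
    rcases Nat.lt_or_ge (rt n) j with h2 | h2
    · obtain ⟨i, rfl⟩ : ∃ i, j = i + 1 := ⟨j - 1, by omega⟩
      rw [hh_big (by omega : rt n ≤ i)]
      have hi : (1 : ℝ) ≤ i := by
        have := rt_pos n
        exact_mod_cast (by omega : 1 ≤ i)
      apply mul_le_mul_of_nonneg_left _ (by positivity)
      apply div_le_div_of_nonneg_left (by positivity) (by push_cast; nlinarith)
      push_cast
      nlinarith
    · have hje : j = rt n := le_antisymm h2 h
      have e : hh n j = 8 * n := by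
        unfold hh
        rw [if_pos h2, hje]; simp
      rw [e]
      have h3 : (rt n : ℝ) ^ 2 / ((j + 1 : ℕ) * j) ≤ 1 := by
        rw [div_le_one (by positivity)]
        push_cast
        rw [hje]
        nlinarith
      calc 8 * (n : ℝ) * ((rt n : ℝ) ^ 2 / ((j + 1 : ℕ) * j)) ≤ 8 * n * 1 :=
            mul_le_mul_of_nonneg_left h3 (by positivity)
        _ = 8 * n := mul_one _

lemma hh_le_of_le (n : ℕ) {i j : ℕ} (hi : 1 ≤ i) (hij : i ≤ j) : hh n j ≤ hh n i := by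
  induction j, hij using Nat.le_induction with
  | base => exact le_rfl
  | succ j hj ih => exact (hh_anti n (by omega)).trans ih

lemma gg_succ (n j : ℕ) : gg n (j + 1) = gg n j + hh n (j + 1) := by
  unfold gg; rw [Finset.sum_range_succ]

lemma gg_nonneg (n j : ℕ) : 0 ≤ gg n j := Finset.sum_nonneg fun i _ => hh_nonneg n _

lemma gg_mono (n : ℕ) {i j : ℕ} (h : i ≤ j) : gg n i ≤ gg n j := by
  induction j, h using Nat.le_induction with
  | base => exact le_rfl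
  | succ j hj ih => rw [gg_succ]; linarith [hh_nonneg n (j + 1)]

/-- concavity: tangent line above the graph -/
lemma gg_sub_le (n k j : ℕ) : gg n j - gg n k ≤ hh n (k + 1) * ((j : ℝ) - k) := by
  rcases le_total k j with h | h
  · induction j, h using Nat.le_induction with
    | base => simp
    | succ j hj ih =>
      rw [gg_succ]
      have h1 := hh_le_of_le n (i := k + 1) (j := j + 1) (by omega) (by omega)
      push_cast
      nlinarith
  · induction k, h using Nat.le_induction with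
    | base => simp
    | succ k hk ih =>
      rw [gg_succ]
      have h1 := hh_anti n (j := k + 1) (by omega)
      have h2 : ((j : ℝ) - k) ≤ 0 := by
        have : (j : ℝ) ≤ k := by exact_mod_cast hk
        linarith
      push_cast
      nlinarith [mul_le_mul_of_nonpos_right h1 h2]

lemma gg_small (n : ℕ) {j : ℕ} (hj : j ≤ rt n) :
    gg n j ≤ 8 * n * (2 * j + j * ∑ i ∈ Finset.Ioc j (rt n), (i : ℝ)⁻¹) := by
  induction j with
  | zero => simp [gg]
  | succ j ih =>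
    have ih' := ih (by omega)
    rw [gg_succ]
    rw [sum_Ioc_split hj] at ih'
    have e : hh n (j + 1) = 8 * n * (1 + ∑ i ∈ Finset.Ioc (j + 1) (rt n), (i : ℝ)⁻¹) := by
      unfold hh; rw [if_pos hj]
    rw [e]
    set S := ∑ i ∈ Finset.Ioc (j + 1) (rt n), (i : ℝ)⁻¹ with hS
    have h1 : (j : ℝ) * ((j + 1 : ℕ) : ℝ)⁻¹ ≤ 1 := by
      rw [← div_eq_mul_inv, div_le_one (by positivity)]
      push_cast; linarith
    have h2 : (0 : ℝ) ≤ 8 * n := by positivity
    have h3 : 2 * (j : ℝ) + j * (((j + 1 : ℕ) : ℝ)⁻¹ + S) + (1 + S) ≤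
        2 * ((j + 1 : ℕ) : ℝ) + ((j + 1 : ℕ) : ℝ) * S := by
      push_cast at h1 ⊢
      nlinarith
    nlinarith [mul_le_mul_of_nonneg_left h3 h2]

lemma gg_rt (n : ℕ) : gg n (rt n) ≤ 16 * n * rt n := by
  have h := gg_small n (le_refl (rt n))
  simp only [Finset.Ioc_self, Finset.sum_empty, mul_zero, add_zero] at h
  linarith

lemma gg_large (n : ℕ) {j : ℕ} (hj : rt n ≤ j) :
    gg n j ≤ 8 * n * (3 * rt n - (rt n : ℝ) ^ 2 / j) := by
  have hrt : (1 : ℝ) ≤ rt n := by exact_mod_cast rt_pos n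
  induction j, hj using Nat.le_induction with
  | base =>
    have h1 := gg_rt n
    have : (rt n : ℝ) ^ 2 / rt n = rt n := by field_simp
    rw [this]
    linarith
  | succ j hj ih =>
    rw [gg_succ, hh_big hj]
    have hj' : (1 : ℝ) ≤ j := by
      have := rt_pos n
      exact_mod_cast (by omega : 1 ≤ j)
    have e : (rt n : ℝ) ^ 2 / j = (rt n : ℝ) ^ 2 / ((j + 1 : ℕ) : ℝ) +
        (rt n : ℝ) ^ 2 / ((j + 1 : ℕ) * j) := by
      push_cast; field_simp
    rw [e] at ih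
    linarith

lemma gg_le (n j : ℕ) : gg n j ≤ 24 * n * rt n := by
  rcases le_total j (rt n) with h | h
  · have h1 := gg_mono n h
    have h2 := gg_rt n
    have h3 : (0 : ℝ) ≤ n * rt n := by positivity
    nlinarith
  · have h1 := gg_large n h
    have h2 : (0 : ℝ) ≤ (rt n : ℝ) ^ 2 / j := by positivity
    have h3 : (0 : ℝ) ≤ 8 * n * ((rt n : ℝ) ^ 2 / j) := by positivity
    linarith

lemma drift_ineq {n k : ℕ} (hn : 0 < n) (hk : 1 ≤ k) :
    1 ≤ hh n (k + 1) * ((k : ℝ) ^ 2 * (n : ℝ)⁻¹ ^ 2 / 4) +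
      (hh n k - hh n (k + 1)) * (k * (n : ℝ)⁻¹ / 3) := by
  have hn' : (0 : ℝ) < n := by exact_mod_cast hn
  have hk' : (1 : ℝ) ≤ k := by exact_mod_cast hk
  rcases Nat.lt_or_ge k (rt n) with h | h
  · have h1 : hh n k - hh n (k + 1) = 8 * n * ((k + 1 : ℕ) : ℝ)⁻¹ := by
      rw [hh_succ_lt h]; ring
    rw [h1]
    have h2 : 0 ≤ hh n (k + 1) * ((k : ℝ) ^ 2 * (n : ℝ)⁻¹ ^ 2 / 4) :=
      mul_nonneg (hh_nonneg _ _) (by positivity)
    have h3 : 8 * (n : ℝ) * ((k + 1 : ℕ) : ℝ)⁻¹ * (k * (n : ℝ)⁻¹ / 3) = 8 * k / (3 * (k + 1)) := by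
      push_cast; field_simp
    rw [h3]
    have h4 : 1 ≤ 8 * (k : ℝ) / (3 * (k + 1)) := by
      rw [le_div_iff₀ (by positivity)]; linarith
    linarith
  · have h1 := hh_anti n hk
    have h2 : 0 ≤ (hh n k - hh n (k + 1)) * (k * (n : ℝ)⁻¹ / 3) :=
      mul_nonneg (by linarith) (by positivity)
    rw [hh_big h] at h2 ⊢
    have hsq : (n : ℝ) ≤ (rt n : ℝ) ^ 2 := by exact_mod_cast (lt_rt_sq n).le
    have h3 : 8 * (n : ℝ) * ((rt n : ℝ) ^ 2 / ((k + 1 : ℕ) * k)) * ((k : ℝ) ^ 2 * (n : ℝ)⁻¹ ^ 2 / 4)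
        = 2 * ((rt n : ℝ) ^ 2 / n) * (k / (k + 1)) := by
      push_cast; field_simp; ring
    rw [h3]
    have h4 : 1 ≤ (rt n : ℝ) ^ 2 / n := by rw [le_div_iff₀ hn']; linarith
    have h5 : 1 / 2 ≤ (k : ℝ) / (k + 1) := by
      rw [div_le_div_iff₀ (by norm_num) (by positivity)]; linarith
    have h6 : 2 * 1 * (1 / 2) ≤ 2 * ((rt n : ℝ) ^ 2 / n) * ((k : ℝ) / (k + 1)) := by
      apply mul_le_mul _ h5 (by norm_num) (by positivity)
      linarith
    linarith

end Pool.Agent.helper80.EA
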