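import Pool.Agent.helper80.EA.Basic

set_option autoImplicit false

open MeasureTheory ProbabilityTheory
open scoped ENNReal

namespace Pool.Agent.helper80.EA

variable {n : ℕ}

lemma runLaw_coord (t : ℕ) (m : Mask n) :
    runLaw n {ω | ω t = m} = ENNReal.ofReal (wt m) := by
  have h1 : {ω : ℕ → Mask n | ω t = m} = (fun ω => ω t) ⁻¹' {m} := rfl
  rw [h1]
  have h2 := (measurePreserving_eval_infinitePi (fun _ : ℕ => maskLaw n) t).measure_preimage
    (s := {m}) (measurableSet_singleton m).nullMeasurableSet
  have h3 : runLaw n = Measure.infinitePi fun _ : ℕ => maskLaw n := rfl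
  rw [h3, ← maskLaw_singleton]
  exact h2

lemma indep_coord_history (t : ℕ) :
    IndepFun (fun ω : ℕ → Mask n => ω t) (fun ω : ℕ → Mask n => history ω t) (runLaw n) := by
  have h1 : iIndepFun (fun (i : ℕ) (ω : ℕ → Mask n) => ω i) (runLaw n) := by
    have := iIndepFun_infinitePi (ι := ℕ) (Ω := fun _ => Mask n) (P := fun _ => maskLaw n)
      (X := fun _ x => x) (fun _ => measurable_id)
    exact this
  have h2 := h1.indepFun_finset {t} (Finset.range t) (by simp) (fun i => measurable_pi_apply i)
  let φ : ((i : ({t} : Finset ℕ)) → Mask n) → Mask n := fun f => f ⟨t, by simp⟩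
  let ψ : ((i : (Finset.range t)) → Mask n) → List (Mask n) := fun f =>
    history (fun s => if hs : s ∈ Finset.range t then f ⟨s, hs⟩ else fun _ => false) t
  have hφ : Measurable φ := measurable_pi_apply _
  have hψ : Measurable ψ := measurable_of_countable _
  have h3 := h2.comp hφ hψ
  have e1 : (φ ∘ fun (a : ℕ → Mask n) (i : ({t} : Finset ℕ)) => a i) = fun ω => ω t := rfl
  have e2 : (ψ ∘ fun (a : ℕ → Mask n) (i : (Finset.range t)) => a i) =
      fun ω => history ω t := by
    funext ω
    simp only [ψ, Function.comp]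
    apply history_congr
    intro s hs
    rw [dif_pos (Finset.mem_range.2 hs)]
  rw [e1, e2] at h3
  exact h3

lemma measurableSet_coord (t : ℕ) (m : Mask n) :
    MeasurableSet {ω : ℕ → Mask n | ω t = m} := by
  have h : Measurable (fun ω : ℕ → Mask n => ω t) := measurable_pi_apply t
  exact h (measurableSet_singleton m)

lemma measurable_list (f : List (Mask n) → ℝ≥0∞) : Measurable f := fun _ _ => trivial

lemma lintegral_step (f : List (Mask n) → ℝ≥0∞) (t : ℕ) :
    ∫⁻ ω, f (history ω (t + 1)) ∂(runLaw n) =
      ∫⁻ ω, ∑ m, ENNReal.ofReal (wt m) * f (m :: history ω t) ∂(runLaw n) := by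
  classical
  have h1 : ∀ ω : ℕ → Mask n, f (history ω (t + 1)) =
      ∑ m, ({ω : ℕ → Mask n | ω t = m}.indicator (fun _ => (1 : ℝ≥0∞)) ω) *
        f (m :: history ω t) := by
    intro ω
    rw [Finset.sum_eq_single (ω t)]
    · simp [history]
    · intro m _ hm
      rw [Set.indicator_of_notMem, zero_mul]
      exact fun h => hm h.symm
    · intro h; exact absurd (Finset.mem_univ _) h
  simp_rw [h1]
  have hm1 : ∀ m : Mask n, Measurable
      ({ω : ℕ → Mask n | ω t = m}.indicator (fun _ => (1 : ℝ≥0∞))) := by
    intro m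
    refine measurable_const.indicator ?_
    exact measurableSet_coord t m
  have hm2 : ∀ m : Mask n, Measurable (fun ω : ℕ → Mask n => f (m :: history ω t)) := by
    intro m
    exact (measurable_list (fun l => f (m :: l))).comp (measurable_history t)
  have hm3 : ∀ m : Mask n, Measurable (fun ω : ℕ → Mask n =>
      ({ω : ℕ → Mask n | ω t = m}.indicator (fun _ => (1 : ℝ≥0∞)) ω) *
        f (m :: history ω t)) := fun m => (hm1 m).mul (hm2 m)
  rw [lintegral_finsetSum _ (fun m _ => hm3 m),
    lintegral_finsetSum _ (fun m _ => (hm2 m).const_mul _)]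
  refine Finset.sum_congr rfl fun m _ => ?_
  rw [lintegral_const_mul _ (hm2 m)]
  have hind : IndepFun ({ω : ℕ → Mask n | ω t = m}.indicator (fun _ => (1 : ℝ≥0∞)))
      (fun ω : ℕ → Mask n => f (m :: history ω t)) (runLaw n) := by
    have := (indep_coord_history (n := n) t).comp
      (φ := fun x : Mask n => if x = m then (1 : ℝ≥0∞) else 0)
      (ψ := fun l => f (m :: l)) (measurable_of_countable _) (measurable_list _)
    have e3 : ({ω : ℕ → Mask n | ω t = m}.indicator (fun _ => (1 : ℝ≥0∞))) =
        (fun x : Mask n => if x = m then (1 : ℝ≥0∞) else 0) ∘ fun ω : ℕ → Mask n => ω t := by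
      funext ω
      simp [Set.indicator, Function.comp]
    rw [e3]
    exact this
  have := lintegral_mul_eq_lintegral_mul_lintegral_of_indepFun (hm1 m) (hm2 m) hind
  simp only [Pi.mul_apply] at this
  rw [this, lintegral_indicator_const (measurableSet_coord t m), one_mul, runLaw_coord]

lemma sum_ofReal_wt_mul (g : Mask n → ℝ) (hg : ∀ m, 0 ≤ g m) :
    ∑ m, ENNReal.ofReal (wt m) * ENNReal.ofReal (g m) = ENNReal.ofReal (E g) := by
  unfold E
  rw [ENNReal.ofReal_sum_of_nonneg (fun m _ => mul_nonneg (wt_nonneg m) (hg m))]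
  exact Finset.sum_congr rfl fun m _ => (ENNReal.ofReal_mul (wt_nonneg m)).symm

/-- Additive drift, upper form: if one step raises the expected potential by at most `δ`,
then after `t` steps it has risen by at most `t * δ`. -/
lemma lintegral_le_of_drift (V : List (Mask n) → ℝ) (hV : ∀ h, 0 ≤ V h) (δ : ℝ) (hδ : 0 ≤ δ)
    (hstep : ∀ h, E (fun m => V (m :: h)) ≤ V h + δ) (t : ℕ) :
    ∫⁻ ω, ENNReal.ofReal (V (history ω t)) ∂(runLaw n) ≤ ENNReal.ofReal (V [] + t * δ) := by
  induction t with
  | zero => simp [history]
  | succ t ih =>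
    rw [lintegral_step (fun l => ENNReal.ofReal (V l))]
    have h1 : ∀ ω : ℕ → Mask n, ∑ m, ENNReal.ofReal (wt m) * ENNReal.ofReal (V (m :: history ω t))
        ≤ ENNReal.ofReal (V (history ω t)) + ENNReal.ofReal δ := by
      intro ω
      rw [sum_ofReal_wt_mul (fun m => V (m :: history ω t)) (fun m => hV _),
        ← ENNReal.ofReal_add (hV _) hδ]
      exact ENNReal.ofReal_le_ofReal (hstep _)
    refine (lintegral_mono h1).trans ?_
    rw [lintegral_add_right _ measurable_const, lintegral_const, measure_univ, mul_one]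
    refine (add_le_add ih le_rfl).trans ?_
    rw [← ENNReal.ofReal_add (by have := hV []; positivity) hδ]
    apply ENNReal.ofReal_le_ofReal
    push_cast
    linarith

/-- Additive drift, lower form: a nonnegative potential which falls by at least one in
expectation in every step taken while alive bounds the expected number of alive steps. -/
lemma sum_alive_le (alive : List (Mask n) → Prop) [DecidablePred alive]
    (V : List (Mask n) → ℝ) (hV : ∀ h, 0 ≤ V h)
    (hstep : ∀ h, alive h → E (fun m => V (m :: h)) + 1 ≤ V h)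
    (hdead : ∀ h, ¬ alive h → E (fun m => V (m :: h)) ≤ V h) (N : ℕ) :
    ∑ t ∈ Finset.range N, ∫⁻ ω, (if alive (history ω t) then 1 else 0) ∂(runLaw n)
      + ∫⁻ ω, ENNReal.ofReal (V (history ω N)) ∂(runLaw n) ≤ ENNReal.ofReal (V []) := by
  induction N with
  | zero => simp [history]
  | succ N ih =>
    refine le_trans ?_ ih
    rw [Finset.sum_range_succ, add_assoc]
    refine add_le_add le_rfl ?_
    rw [lintegral_step (fun l => ENNReal.ofReal (V l))]
    have hm : Measurable (fun ω : ℕ → Mask n => if alive (history ω N) then (1 : ℝ≥0∞) else 0) :=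
      (measurable_list (fun l => if alive l then (1 : ℝ≥0∞) else 0)).comp (measurable_history N)
    rw [← lintegral_add_left hm]
    refine lintegral_mono fun ω => ?_
    rw [sum_ofReal_wt_mul (fun m => V (m :: history ω N)) (fun m => hV _)]
    by_cases ha : alive (history ω N)
    · rw [if_pos ha, ← ENNReal.ofReal_one,
        ← ENNReal.ofReal_add zero_le_one (E_nonneg fun m => hV _)]
      apply ENNReal.ofReal_le_ofReal
      linarith [hstep _ ha]
    · rw [if_neg ha, zero_add]
      exact ENNReal.ofReal_le_ofReal (hdead _ ha)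

end Pool.Agent.helper80.EA
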