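import Pool.Agent.helper80.EA.Cross

set_option autoImplicit false

open MeasureTheory ProbabilityTheory
open scoped ENNReal

namespace Pool.Agent.helper80.EA

variable {n : ℕ}

lemma prod_fl (T : Finset (Fin n)) (m : Mask n) :
    ∏ i ∈ T, fl i m = if (∀ i ∈ T, m i = true) then 1 else 0 := by
  split_ifs with h
  · exact Finset.prod_eq_one fun i hi => by unfold fl; rw [if_pos (h i hi)]
  · push Not at h
    obtain ⟨i, hi, hmi⟩ := h
    exact Finset.prod_eq_zero hi (by unfold fl; rw [if_neg hmi])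

lemma choose_cnt (S : Finset (Fin n)) (r : ℕ) (m : Mask n) :
    ((Nat.choose (cnt S m) r : ℕ) : ℝ) = ∑ T ∈ S.powersetCard r, ∏ i ∈ T, fl i m := by
  classical
  have h1 : ∀ T, (∏ i ∈ T, fl i m) = if (∀ i ∈ T, m i = true) then (1 : ℝ) else 0 :=
    fun T => prod_fl T m
  simp_rw [h1]
  rw [← Finset.sum_filter, Finset.sum_const, nsmul_eq_mul, mul_one]
  have h2 : (S.powersetCard r).filter (fun T => ∀ i ∈ T, m i = true) =
      (S.filter (fun i => m i = true)).powersetCard r := by
    ext T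
    simp only [Finset.mem_filter, Finset.mem_powersetCard, Finset.subset_iff]
    constructor
    · rintro ⟨⟨h3, h4⟩, h5⟩
      exact ⟨fun i hi => ⟨h3 hi, h5 i hi⟩, h4⟩
    · rintro ⟨h3, h4⟩
      exact ⟨⟨fun i hi => (h3 hi).1, h4⟩, fun i hi => (h3 hi).2⟩
  rw [h2, Finset.card_powersetCard]
  rfl

lemma E_choose_mul {S T : Finset (Fin n)} (h : Disjoint S T) (r s : ℕ) :
    E (fun m => ((Nat.choose (cnt S m) r : ℕ) : ℝ) * ((Nat.choose (cnt T m) s : ℕ) : ℝ)) =
      (Nat.choose S.card r) * (Nat.choose T.card s) * (n : ℝ)⁻¹ ^ (r + s) := by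
  classical
  simp_rw [choose_cnt, Finset.sum_mul_sum]
  rw [E_sum]
  have h1 : ∀ A ∈ S.powersetCard r, E (fun m => ∑ B ∈ T.powersetCard s,
      (∏ i ∈ A, fl i m) * ∏ i ∈ B, fl i m) = (Nat.choose T.card s) * (n : ℝ)⁻¹ ^ (r + s) := by
    intro A hA
    rw [E_sum]
    have h2 : ∀ B ∈ T.powersetCard s, E (fun m => (∏ i ∈ A, fl i m) * ∏ i ∈ B, fl i m) =
        (n : ℝ)⁻¹ ^ (r + s) := by
      intro B hB
      rw [Finset.mem_powersetCard] at hA hB
      have hd : Disjoint A B := Finset.disjoint_of_subset_left hA.1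
        (Finset.disjoint_of_subset_right hB.1 h)
      have h3 := E_pattern (A ∪ B) (∅ : Finset (Fin n)) (by simp)
      simp only [Finset.prod_empty, mul_one, Finset.card_empty, pow_zero] at h3
      rw [Finset.card_union_of_disjoint hd, hA.2, hB.2] at h3
      rw [← h3]
      congr 1
      funext m
      rw [Finset.prod_union hd]
    rw [Finset.sum_congr rfl h2, Finset.sum_const, nsmul_eq_mul, Finset.card_powersetCard]
  rw [Finset.sum_congr rfl h1, Finset.sum_const, nsmul_eq_mul, Finset.card_powersetCard, mul_assoc]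

open Classical in
/-- indicator that exactly one bit of `S` is flipped -/
noncomputable def one (S : Finset (Fin n)) (m : Mask n) : ℝ := if cnt S m = 1 then 1 else 0

open Classical in
/-- indicator that exactly one bit of `S` is flipped and no other bit at all -/
noncomputable def only (S : Finset (Fin n)) (m : Mask n) : ℝ :=
  if cnt S m = 1 ∧ cnt Finset.univ m = 1 then 1 else 0

lemma sum_pattern (S R : Finset (Fin n)) (hSR : S ⊆ R) (m : Mask n) :
    ∑ i ∈ S, fl i m * ∏ j ∈ R.erase i, (1 - fl j m) =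
      if cnt S m = 1 ∧ cnt R m = 1 then 1 else 0 := by
  classical
  have hle : cnt S m ≤ cnt R m :=
    Finset.card_le_card (Finset.filter_subset_filter _ hSR)
  split_ifs with h
  · obtain ⟨hS, hR⟩ := h
    unfold cnt at hS hR
    obtain ⟨a, ha⟩ := Finset.card_eq_one.1 hS
    obtain ⟨c, hc⟩ := Finset.card_eq_one.1 hR
    have haS : a ∈ S.filter (fun i => m i = true) := by rw [ha]; simp
    have haS' := Finset.mem_filter.1 haS
    have hca : c = a := by
      have : a ∈ R.filter (fun i => m i = true) := Finset.mem_filter.2 ⟨hSR haS'.1, haS'.2⟩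
      rw [hc] at this
      exact (Finset.mem_singleton.1 this).symm
    subst hca
    rw [Finset.sum_eq_single c]
    · have h1 : fl c m = 1 := by unfold fl; rw [if_pos haS'.2]
      rw [h1, one_mul]
      refine Finset.prod_eq_one fun j hj => ?_
      have hj' := Finset.mem_erase.1 hj
      have : m j ≠ true := by
        intro hmj
        have h2 : j ∈ R.filter (fun i => m i = true) := Finset.mem_filter.2 ⟨hj'.2, hmj⟩
        rw [hc] at h2
        exact hj'.1 (Finset.mem_singleton.1 h2)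
      unfold fl; rw [if_neg this, sub_zero]
    · intro i hi hic
      have : m i ≠ true := by
        intro hmi
        have h2 : i ∈ S.filter (fun i => m i = true) := Finset.mem_filter.2 ⟨hi, hmi⟩
        rw [ha] at h2
        exact hic (Finset.mem_singleton.1 h2)
      unfold fl; rw [if_neg this, zero_mul]
    · intro h'; exact absurd haS'.1 h'
  · refine Finset.sum_eq_zero fun i hi => ?_
    by_cases hmi : m i = true
    · -- then cnt S ≥ 1, cnt R ≥ 1, so cnt R ≥ 2
      have hiS : i ∈ S.filter (fun i => m i = true) := Finset.mem_filter.2 ⟨hi, hmi⟩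
      have h1 : 1 ≤ cnt S m := Finset.card_pos.2 ⟨i, hiS⟩
      have h2 : 1 < cnt R m := by
        by_contra h3
        push Not at h3
        exact h ⟨by omega, by omega⟩
      unfold cnt at h2
      obtain ⟨j, hj, hji⟩ := Finset.exists_mem_ne h2 i
      have hj' := Finset.mem_filter.1 hj
      have : ∏ j ∈ R.erase i, (1 - fl j m) = 0 := by
        refine Finset.prod_eq_zero (Finset.mem_erase.2 ⟨hji, hj'.1⟩) ?_
        unfold fl; rw [if_pos hj'.2]; norm_num
      rw [this, mul_zero]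
    · unfold fl; rw [if_neg hmi, zero_mul]

lemma one_eq (S : Finset (Fin n)) (m : Mask n) :
    one S m = ∑ i ∈ S, fl i m * ∏ j ∈ S.erase i, (1 - fl j m) := by
  rw [sum_pattern S S (le_refl _) m]
  unfold one
  congr 1
  simp

lemma only_eq (S : Finset (Fin n)) (m : Mask n) :
    only S m = ∑ i ∈ S, fl i m * ∏ j ∈ Finset.univ.erase i, (1 - fl j m) := by
  rw [sum_pattern S Finset.univ (Finset.subset_univ _) m]
  unfold only
  congr 1

lemma E_one (S : Finset (Fin n)) :
    E (one S) = S.card * ((n : ℝ)⁻¹ * (1 - (n : ℝ)⁻¹) ^ (S.card - 1)) := by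
  classical
  have h0 : one S = fun m => ∑ i ∈ S, fl i m * ∏ j ∈ S.erase i, (1 - fl j m) :=
    funext fun m => one_eq S m
  rw [h0, E_sum]
  have h1 : ∀ i ∈ S, E (fun m => fl i m * ∏ j ∈ S.erase i, (1 - fl j m)) =
      (n : ℝ)⁻¹ * (1 - (n : ℝ)⁻¹) ^ (S.card - 1) := by
    intro i hi
    have h2 := E_pattern {i} (S.erase i) (by simp)
    simp only [Finset.prod_singleton, Finset.card_singleton, pow_one] at h2
    rw [h2, Finset.card_erase_of_mem hi]
  rw [Finset.sum_congr rfl h1, Finset.sum_const, nsmul_eq_mul]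

lemma E_only (S : Finset (Fin n)) :
    E (only S) = S.card * ((n : ℝ)⁻¹ * (1 - (n : ℝ)⁻¹) ^ (n - 1)) := by
  classical
  have h0 : only S = fun m => ∑ i ∈ S, fl i m * ∏ j ∈ Finset.univ.erase i, (1 - fl j m) :=
    funext fun m => only_eq S m
  rw [h0, E_sum]
  have h1 : ∀ i ∈ S, E (fun m => fl i m * ∏ j ∈ Finset.univ.erase i, (1 - fl j m)) =
      (n : ℝ)⁻¹ * (1 - (n : ℝ)⁻¹) ^ (n - 1) := by
    intro i hi
    have h2 := E_pattern {i} (Finset.univ.erase i) (by simp)
    simp only [Finset.prod_singleton, Finset.card_singleton, pow_one] at h2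
    rw [h2, Finset.card_erase_of_mem (Finset.mem_univ i), Finset.card_univ, Fintype.card_fin]
  rw [Finset.sum_congr rfl h1, Finset.sum_const, nsmul_eq_mul]

lemma E_one_mul_cnt {S T : Finset (Fin n)} (h : Disjoint S T) :
    E (fun m => one S m * cnt T m) =
      S.card * T.card * ((n : ℝ)⁻¹ ^ 2 * (1 - (n : ℝ)⁻¹) ^ (S.card - 1)) := by
  classical
  simp_rw [one_eq, cnt_cast, Finset.sum_mul_sum]
  rw [E_sum]
  have h1 : ∀ i ∈ S, E (fun m => ∑ l ∈ T, (fl i m * ∏ j ∈ S.erase i, (1 - fl j m)) * fl l m) =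
      T.card * ((n : ℝ)⁻¹ ^ 2 * (1 - (n : ℝ)⁻¹) ^ (S.card - 1)) := by
    intro i hi
    rw [E_sum]
    have h2 : ∀ l ∈ T, E (fun m => (fl i m * ∏ j ∈ S.erase i, (1 - fl j m)) * fl l m) =
        (n : ℝ)⁻¹ ^ 2 * (1 - (n : ℝ)⁻¹) ^ (S.card - 1) := by
      intro l hl
      have hil : i ≠ l := fun e => Finset.disjoint_left.1 h hi (e ▸ hl)
      have hlS : l ∉ S := fun e => Finset.disjoint_left.1 h e hl
      have hd : Disjoint ({i, l} : Finset (Fin n)) (S.erase i) := by
        rw [Finset.disjoint_left]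
        intro a ha ha'
        simp only [Finset.mem_insert, Finset.mem_singleton] at ha
        have hb := Finset.mem_erase.1 ha'
        rcases ha with rfl | rfl
        · exact hb.1 rfl
        · exact hlS hb.2
      have h3 := E_pattern {i, l} (S.erase i) hd
      rw [Finset.card_pair hil, Finset.card_erase_of_mem hi] at h3
      rw [← h3]
      congr 1
      funext m
      rw [Finset.prod_pair hil]; ring
    have h4 := Finset.sum_congr rfl h2
    rw [Finset.sum_const, nsmul_eq_mul] at h4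
    exact h4
  have h5 := Finset.sum_congr rfl h1
  rw [Finset.sum_const, nsmul_eq_mul, ← mul_assoc] at h5
  exact h5

lemma third_le (hn : 0 < n) : (1 : ℝ) / 3 ≤ (1 - (n : ℝ)⁻¹) ^ (n - 1) := by
  obtain ⟨N, rfl⟩ : ∃ N, n = N + 1 := ⟨n - 1, by omega⟩
  rcases Nat.eq_zero_or_pos N with rfl | hN
  · norm_num
  · have hN' : (0 : ℝ) < N := by exact_mod_cast hN
    have e1 : (1 - ((N + 1 : ℕ) : ℝ)⁻¹) = (1 + (N : ℝ)⁻¹)⁻¹ := by
      push_cast; field_simp; ring
    have h2 : (1 + (N : ℝ)⁻¹) ^ N ≤ 3 := by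
      have h3 : (1 + (N : ℝ)⁻¹) ^ N ≤ (Real.exp ((N : ℝ)⁻¹)) ^ N := by
        apply pow_le_pow_left₀ (by positivity)
        rw [add_comm]; exact Real.add_one_le_exp _
      rw [← Real.exp_nat_mul, mul_inv_cancel₀ hN'.ne'] at h3
      have h4 := Real.exp_one_lt_d9
      linarith
    rw [Nat.add_sub_cancel, e1, inv_pow, one_div]
    exact inv_anti₀ (by positivity) h2

lemma third_le_pow (hn : 0 < n) {j : ℕ} (hj : j ≤ n - 1) :
    (1 : ℝ) / 3 ≤ (1 - (n : ℝ)⁻¹) ^ j := by
  refine (third_le hn).trans ?_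
  obtain ⟨h0, h1⟩ := inv_bounds (n := n)
  exact pow_le_pow_of_le_one (by linarith) (by linarith) hj

lemma sixth_le_pow (hn : 2 ≤ n) {j : ℕ} (hj : j ≤ n) :
    (1 : ℝ) / 6 ≤ (1 - (n : ℝ)⁻¹) ^ j := by
  obtain ⟨h0, h1⟩ := inv_bounds (n := n)
  have h2 : (1 - (n : ℝ)⁻¹) ^ n ≤ (1 - (n : ℝ)⁻¹) ^ j :=
    pow_le_pow_of_le_one (by linarith) (by linarith) hj
  refine le_trans ?_ h2
  obtain ⟨N, rfl⟩ : ∃ N, n = N + 1 := ⟨n - 1, by omega⟩
  rw [pow_succ]
  have h3 := third_le (n := N + 1) (by omega)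
  rw [Nat.add_sub_cancel] at h3
  have h4 : (2 : ℝ) ≤ ((N + 1 : ℕ) : ℝ) := by exact_mod_cast hn
  have h5 : (((N + 1 : ℕ) : ℝ))⁻¹ ≤ 1 / 2 := by
    rw [one_div]; exact inv_anti₀ (by norm_num) h4
  nlinarith

end Pool.Agent.helper80.EA
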