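import Pool.Agent.helper80.EA.UpperMoments
import Pool.Agent.helper80.EA.Potential
import Pool.Agent.helper80.EA.LowerStep

set_option autoImplicit false

open MeasureTheory ProbabilityTheory
open scoped ENNReal

namespace Pool.Agent.helper80.EA

variable {n : ℕ}

lemma disj_jobs (x : Fin n → Bool) (b : Bool) : Disjoint (jobs x b) (jobs x (!b)) := by
  rw [Finset.disjoint_left]; intro i h1 h2
  rw [mem_jobs] at h1 h2; rw [h1] at h2; cases b <;> simp at h2

lemma card_jobs_add' (x : Fin n → Bool) (b : Bool) :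
    (jobs x b).card + (jobs x (!b)).card = n := by
  have h : jobs x (!b) = Finset.univ.filter (fun i => ¬ x i = b) := by
    ext i; simp only [jobs, Finset.mem_filter, Finset.mem_univ, true_and]
    cases x i <;> cases b <;> simp
  rw [h]
  unfold jobs
  rw [Finset.card_filter_add_card_filter_not]
  simp

lemma cnt_univ_eq' (x : Fin n → Bool) (b : Bool) (m : Mask n) :
    cnt Finset.univ m = cnt (jobs x b) m + cnt (jobs x (!b)) m := by
  rw [cnt_univ_eq x m]
  cases b
  · rfl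
  · rw [add_comm]; rfl

lemma flow_split (p : Fin n → ℝ) (x : Fin n → Bool) (m : Mask n) (b : Bool) :
    flow p x m b = ∑ i ∈ jobs x b, fl i m * p i - ∑ i ∈ jobs x (!b), fl i m * p i := by
  classical
  unfold flow
  have h : ∀ i, sg b (x i) * fl i m * p i =
      (if i ∈ jobs x b then fl i m * p i else 0) - (if i ∈ jobs x (!b) then fl i m * p i else 0) := by
    intro i
    simp only [mem_jobs]
    unfold sg
    cases x i <;> cases b <;> simp
  simp_rw [h]
  rw [Finset.sum_sub_distrib]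
  simp only [Finset.sum_ite_mem, Finset.univ_inter]

lemma sum_fl_nonneg (p : Fin n → ℝ) (hp : ∀ i, 0 < p i) (S : Finset (Fin n)) (m : Mask n) :
    0 ≤ ∑ i ∈ S, fl i m * p i :=
  Finset.sum_nonneg fun i _ => mul_nonneg (fl_nonneg i m) (hp i).le

lemma sum_fl_le (p : Fin n → ℝ) {U : ℝ} (hpU : ∀ i, p i ≤ U) (S : Finset (Fin n)) (m : Mask n) :
    ∑ i ∈ S, fl i m * p i ≤ cnt S m * U := by
  rw [cnt_cast, Finset.sum_mul]
  exact Finset.sum_le_sum fun i _ => mul_le_mul_of_nonneg_left (hpU i) (fl_nonneg i m)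

lemma sum_fl_eq_zero (p : Fin n → ℝ) (S : Finset (Fin n)) (m : Mask n) (h : cnt S m = 0) :
    ∑ i ∈ S, fl i m * p i = 0 := by
  refine Finset.sum_eq_zero fun i hi => ?_
  have h1 : ¬ m i = true := by
    intro hm
    unfold cnt at h
    rw [Finset.card_eq_zero] at h
    have : i ∈ S.filter (fun i => m i = true) := Finset.mem_filter.2 ⟨hi, hm⟩
    rw [h] at this
    simp at this
  unfold fl; rw [if_neg h1, zero_mul]

lemma cnt_eq_zero_of_sum (p : Fin n → ℝ) (hp : ∀ i, 0 < p i) (S : Finset (Fin n)) (m : Mask n)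
    (h : ∑ i ∈ S, fl i m * p i ≤ 0) : cnt S m = 0 := by
  unfold cnt
  rw [Finset.card_eq_zero, Finset.filter_eq_empty_iff]
  intro i hi hm
  have h1 : fl i m * p i ≤ ∑ j ∈ S, fl j m * p j :=
    Finset.single_le_sum (f := fun j => fl j m * p j)
      (fun j _ => mul_nonneg (fl_nonneg j m) (hp j).le) hi
  have h2 : fl i m = 1 := by unfold fl; rw [if_pos hm]
  rw [h2, one_mul] at h1
  linarith [hp i]

open Classical in
/-- accepted and not beyond the window -/
noncomputable def near (p : Fin n → ℝ) (x : Fin n → Bool) (b : Bool) (c : ℝ) (m : Mask n) : ℝ :=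
  if 0 ≤ flow p x m b ∧ flow p x m b ≤ c then 1 else 0

lemma near_nonneg (p : Fin n → ℝ) (x : Fin n → Bool) (b : Bool) (c : ℝ) (m : Mask n) :
    0 ≤ near p x b c m := by unfold near; split_ifs <;> norm_num
lemma near_le_one (p : Fin n → ℝ) (x : Fin n → Bool) (b : Bool) (c : ℝ) (m : Mask n) :
    near p x b c m ≤ 1 := by unfold near; split_ifs <;> norm_num

lemma near_zero {p : Fin n → ℝ} (hp : ∀ i, 0 < p i) {x : Fin n → Bool} {b : Bool} {c : ℝ}
    {m : Mask n} (h0 : cnt (jobs x b) m = 0) (h : near p x b c m ≠ 0) :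
    cnt (jobs x (!b)) m = 0 := by
  unfold near at h
  split_ifs at h with h1
  · rw [flow_split, sum_fl_eq_zero p _ m h0] at h1
    exact cnt_eq_zero_of_sum p hp _ m (by linarith [h1.1])
  · exact absurd rfl h

lemma near_one {p : Fin n → ℝ} (hp : ∀ i, 0 < p i) {U c : ℝ} (hpU : ∀ i, p i ≤ U) (hc : U ≤ c)
    {x : Fin n → Bool} {b : Bool} {m : Mask n} (h1 : cnt (jobs x b) m = 1)
    (h0 : cnt (jobs x (!b)) m = 0) : near p x b c m = 1 := by
  unfold near
  rw [if_pos]
  rw [flow_split, sum_fl_eq_zero p (jobs x (!b)) m h0]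
  have h2 := sum_fl_nonneg p hp (jobs x b) m
  have h3 := sum_fl_le p hpU (jobs x b) m
  rw [h1] at h3
  push_cast at h3
  constructor <;> linarith

lemma choose_ge {X Y : ℕ} (hX : 2 ≤ X) :
    ((Y : ℝ) - 2) ≤ (Nat.choose X 2 : ℝ) * (Nat.choose Y 3 : ℝ) := by
  have h1 : 1 ≤ Nat.choose X 2 := Nat.choose_pos hX
  have h1' : (1 : ℝ) ≤ (Nat.choose X 2 : ℝ) := by exact_mod_cast h1
  have h2 : (Y : ℝ) - 2 ≤ (Nat.choose Y 3 : ℝ) := by
    rcases Nat.lt_or_ge Y 3 with h | h
    · have : (Y : ℝ) ≤ 2 := by exact_mod_cast (by omega : Y ≤ 2)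
      have : (0 : ℝ) ≤ (Nat.choose Y 3 : ℝ) := by positivity
      linarith
    · obtain ⟨Z, rfl⟩ : ∃ Z, Y = Z + 3 := ⟨Y - 3, by omega⟩
      have h3 : Z + 1 ≤ Nat.choose (Z + 3) 3 := by
        induction Z with
        | zero => simp
        | succ Z ih =>
          have h4 : Nat.choose (Z + 1 + 3) 3 = Nat.choose (Z + 3) 2 + Nat.choose (Z + 3) 3 :=
            Nat.choose_succ_succ (Z + 3) 2
          have h5 : 1 ≤ Nat.choose (Z + 3) 2 := Nat.choose_pos (by omega)
          have := ih (by omega)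
          omega
      have h4 : ((Z + 1 : ℕ) : ℝ) ≤ (Nat.choose (Z + 3) 3 : ℝ) := by exact_mod_cast h3
      push_cast at h4 ⊢
      linarith
  have h3 : (0 : ℝ) ≤ (Nat.choose Y 3 : ℝ) := by positivity
  nlinarith

/-- pointwise drift bound -/
lemma near_mul_le {p : Fin n → ℝ} (hp : ∀ i, 0 < p i) {U c : ℝ} (hpU : ∀ i, p i ≤ U)
    (hc : U ≤ c) (x : Fin n → Bool) (b : Bool) (m : Mask n) :
    near p x b c m * ((cnt (jobs x (!b)) m : ℝ) - cnt (jobs x b) m) ≤
      one (jobs x b) m * cnt (jobs x (!b)) m - one (jobs x b) m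
        + (Nat.choose (cnt (jobs x b) m) 2 : ℝ) * (Nat.choose (cnt (jobs x (!b)) m) 3 : ℝ) := by
  have hn0 := near_nonneg p x b c m
  have hn1 := near_le_one p x b c m
  have hz := near_zero (c := c) hp (x := x) (b := b) (m := m)
  have ho := near_one hp hpU hc (x := x) (b := b) (m := m)
  unfold one
  generalize near p x b c m = e at *
  generalize cnt (jobs x b) m = X at *
  generalize cnt (jobs x (!b)) m = Y at *
  have hY : (0 : ℝ) ≤ Y := by positivity
  rcases Nat.lt_or_ge X 2 with h | h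
  · interval_cases X
    · by_cases he : e = 0
      · rw [he]; simp
      · have := hz rfl he
        subst this
        simp
    · simp only [if_true]
      rcases Nat.eq_zero_or_pos Y with hY0 | hY0
      · have := ho rfl hY0
        subst hY0
        rw [this]; simp
      · have hY1 : (1 : ℝ) ≤ Y := by exact_mod_cast hY0
        have hch : (0 : ℝ) ≤ (Nat.choose 1 2 : ℝ) * (Nat.choose Y 3 : ℝ) := by positivity
        push_cast
        nlinarith
  · rw [if_neg (by omega)]
    have h1 := choose_ge (Y := Y) h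
    have h2 : (2 : ℝ) ≤ X := by exact_mod_cast h
    have h3 : (0 : ℝ) ≤ (Nat.choose X 2 : ℝ) * (Nat.choose Y 3 : ℝ) := by positivity
    rcases le_total (X : ℝ) (Y : ℝ) with h4 | h4
    · nlinarith
    · nlinarith

lemma choose_two_le (k : ℕ) : (Nat.choose k 2 : ℝ) ≤ (k : ℝ) ^ 2 / 2 := by
  have := Nat.choose_le_pow_div (α := ℝ) 2 k
  simpa using this

lemma choose_three_le (k : ℕ) : (Nat.choose k 3 : ℝ) ≤ (k : ℝ) ^ 3 / 6 := by
  have := Nat.choose_le_pow_div (α := ℝ) 3 k
  have h6 : ((Nat.factorial 3 : ℕ) : ℝ) = 6 := by norm_num [Nat.factorial]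
  rw [h6] at this
  exact this

lemma E_near_mul_le (hn : 0 < n) {p : Fin n → ℝ} (hp : ∀ i, 0 < p i) {U c : ℝ}
    (hpU : ∀ i, p i ≤ U) (hc : U ≤ c) (x : Fin n → Bool) (b : Bool) (hk : 1 ≤ (jobs x b).card) :
    E (fun m => near p x b c m * ((cnt (jobs x (!b)) m : ℝ) - cnt (jobs x b) m)) ≤
      - (((jobs x b).card : ℝ) ^ 2 * (n : ℝ)⁻¹ ^ 2 / 4) := by
  refine (E_mono (near_mul_le hp hpU hc x b)).trans ?_
  rw [E_add, E_sub, E_one_mul_cnt (disj_jobs x b), E_one, E_choose_mul (disj_jobs x b)]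
  have hn' : (0 : ℝ) < n := by exact_mod_cast hn
  have h1 : ((jobs x b).card : ℝ) + (jobs x (!b)).card = n := by exact_mod_cast card_jobs_add' x b
  have hkn : (jobs x b).card ≤ n := by have := card_jobs_add' x b; omega
  have hpow := third_le_pow hn (j := (jobs x b).card - 1) (by omega)
  have hc2 := choose_two_le (jobs x b).card
  have hc3 := choose_three_le (jobs x (!b)).card
  have hl : ((jobs x (!b)).card : ℝ) ≤ n := by
    have : (0 : ℝ) ≤ (jobs x b).card := Nat.cast_nonneg _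
    linarith
  have hl0 : (0 : ℝ) ≤ (jobs x (!b)).card := Nat.cast_nonneg _
  have hk0 : (0 : ℝ) ≤ (jobs x b).card := Nat.cast_nonneg _
  have hch20 : (0 : ℝ) ≤ (Nat.choose (jobs x b).card 2 : ℝ) := Nat.cast_nonneg _
  have hch30 : (0 : ℝ) ≤ (Nat.choose (jobs x (!b)).card 3 : ℝ) := Nat.cast_nonneg _
  generalize hK : ((jobs x b).card : ℝ) = k at *
  generalize hL : ((jobs x (!b)).card : ℝ) = l at *
  generalize hP : (1 - (n : ℝ)⁻¹) ^ ((jobs x b).card - 1) = P at *
  generalize (Nat.choose (jobs x b).card 2 : ℝ) = c2 at *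
  generalize (Nat.choose (jobs x (!b)).card 3 : ℝ) = c3 at *
  set q : ℝ := (n : ℝ)⁻¹ with hq
  have hnq : (n : ℝ) * q = 1 := mul_inv_cancel₀ hn'.ne'
  have hq0 : 0 < q := by positivity
  have e1 : k * l * (q ^ 2 * P) - k * (q * P) = - (k ^ 2 * q ^ 2 * P) := by
    have hl' : l = n - k := by linarith
    rw [hl']
    have : k * (n : ℝ) * (q ^ 2 * P) = k * (q * P) := by
      calc k * (n : ℝ) * (q ^ 2 * P) = ((n : ℝ) * q) * (k * (q * P)) := by ring
        _ = k * (q * P) := by rw [hnq, one_mul]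
    linarith
  rw [e1]
  have e2 : c2 * c3 * q ^ (2 + 3) ≤ k ^ 2 * q ^ 2 / 12 := by
    have a1 : c2 * c3 ≤ (k ^ 2 / 2) * (l ^ 3 / 6) :=
      mul_le_mul hc2 hc3 hch30 (by positivity)
    have a2 : l ^ 3 ≤ (n : ℝ) ^ 3 := pow_le_pow_left₀ hl0 hl 3
    have a3 : (k ^ 2 / 2) * (l ^ 3 / 6) ≤ (k ^ 2 / 2) * ((n : ℝ) ^ 3 / 6) :=
      mul_le_mul_of_nonneg_left (by linarith) (by positivity)
    calc c2 * c3 * q ^ (2 + 3) ≤ (k ^ 2 / 2) * ((n : ℝ) ^ 3 / 6) * q ^ (2 + 3) :=
          mul_le_mul_of_nonneg_right (a1.trans a3) (by positivity)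
      _ = k ^ 2 * q ^ 2 / 12 * ((n : ℝ) * q) ^ 3 := by ring
      _ = k ^ 2 * q ^ 2 / 12 := by rw [hnq]; ring
  have e3 : k ^ 2 * q ^ 2 * (1 / 3) ≤ k ^ 2 * q ^ 2 * P :=
    mul_le_mul_of_nonneg_left hpow (by positivity)
  linarith

/-- the potential after the step, along accepted non-overshooting offspring -/
lemma near_gg_le {p : Fin n → ℝ} (hp : ∀ i, 0 < p i) {U c : ℝ} (hpU : ∀ i, p i ≤ U)
    (hc : U ≤ c) (x : Fin n → Bool) (b : Bool) (m : Mask n) (hk : 1 ≤ (jobs x b).card) :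
    near p x b c m * (gg n (jobs (mutate x m) b).card - gg n (jobs x b).card) ≤
      hh n ((jobs x b).card + 1) *
        (near p x b c m * ((cnt (jobs x (!b)) m : ℝ) - cnt (jobs x b) m))
      - (hh n (jobs x b).card - hh n ((jobs x b).card + 1)) * only (jobs x b) m := by
  have hjm := jobs_mutate_card x m b
  have hn0 := near_nonneg p x b c m
  have hcu := cnt_univ_eq' x b m
  by_cases ho : cnt (jobs x b) m = 1 ∧ cnt Finset.univ m = 1
  · have h0 : cnt (jobs x (!b)) m = 0 := by omega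
    have h1 := near_one hp hpU hc ho.1 h0
    have h2 : only (jobs x b) m = 1 := by unfold only; rw [if_pos ho]
    rw [h1, h2, ho.1, h0]
    obtain ⟨j, hj⟩ : ∃ j, (jobs x b).card = j + 1 := ⟨(jobs x b).card - 1, by omega⟩
    have hj2 : (jobs (mutate x m) b).card = j := by omega
    rw [hj2, hj, gg_succ]
    push_cast
    linarith
  · have h2 : only (jobs x b) m = 0 := by unfold only; rw [if_neg ho]
    rw [h2, mul_zero, sub_zero]
    have h3 := gg_sub_le n (jobs x b).card (jobs (mutate x m) b).card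
    have h4 : ((jobs (mutate x m) b).card : ℝ) - (jobs x b).card =
        (cnt (jobs x (!b)) m : ℝ) - cnt (jobs x b) m := by
      have : ((jobs (mutate x m) b).card : ℝ) + cnt (jobs x b) m =
        (jobs x b).card + cnt (jobs x (!b)) m := by exact_mod_cast hjm
      linarith
    rw [h4] at h3
    calc near p x b c m * (gg n (jobs (mutate x m) b).card - gg n (jobs x b).card)
        ≤ near p x b c m * (hh n ((jobs x b).card + 1) *
          ((cnt (jobs x (!b)) m : ℝ) - cnt (jobs x b) m)) := mul_le_mul_of_nonneg_left h3 hn0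
      _ = _ := by ring

lemma E_near_gg_le (hn : 0 < n) {p : Fin n → ℝ} (hp : ∀ i, 0 < p i) {U c : ℝ}
    (hpU : ∀ i, p i ≤ U) (hc : U ≤ c) (x : Fin n → Bool) (b : Bool) (hk : 1 ≤ (jobs x b).card) :
    E (fun m => near p x b c m * (gg n (jobs (mutate x m) b).card - gg n (jobs x b).card)) ≤
      -1 := by
  refine (E_mono (fun m => near_gg_le hp hpU hc x b m hk)).trans ?_
  rw [E_sub, E_const_mul, E_const_mul]
  have h1 := E_near_mul_le hn hp hpU hc x b hk
  have h2 : ((jobs x b).card : ℝ) * (n : ℝ)⁻¹ / 3 ≤ E (only (jobs x b)) := by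
    rw [E_only]
    have h3 := third_le hn
    have h4 : (0 : ℝ) ≤ ((jobs x b).card : ℝ) * (n : ℝ)⁻¹ := by positivity
    calc ((jobs x b).card : ℝ) * (n : ℝ)⁻¹ / 3 = ((jobs x b).card : ℝ) * (n : ℝ)⁻¹ * (1 / 3) := by
          ring
      _ ≤ ((jobs x b).card : ℝ) * (n : ℝ)⁻¹ * (1 - (n : ℝ)⁻¹) ^ (n - 1) :=
          mul_le_mul_of_nonneg_left h3 h4
      _ = _ := by ring
  have h3 := drift_ineq hn hk
  have h4 := hh_nonneg n ((jobs x b).card + 1)
  have h5 : 0 ≤ hh n (jobs x b).card - hh n ((jobs x b).card + 1) := by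
    have := hh_anti n hk; linarith
  have h6 := mul_le_mul_of_nonneg_left h1 h4
  have h7 := mul_le_mul_of_nonneg_left h2 h5
  linarith

end Pool.Agent.helper80.EA
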